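import Pool.Agent.Lib.MP_b9e19b_mp.Small.P.Symm

set_option autoImplicit false

/-!
# Small/P/Conv: the form of the pencil in the coordinates `(a, b)`
-/

namespace RelEqN.Small.ConvM

open RelEqN.Small.SymmM

lemma inv_norm (z : ℂ) : (‖z‖ ^ 3)⁻¹ = (‖z‖ ^ 5)⁻¹ * (z.re * z.re + z.im * z.im) := by
  have h2 : z.re * z.re + z.im * z.im = ‖z‖ ^ 2 := by
    rw [Complex.sq_norm, Complex.normSq_apply]
  rw [h2]
  by_cases hz : z = 0
  · subst hz
    simp
  · have h3 : ‖z‖ ≠ 0 := norm_ne_zero_iff.2 hz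
    field_simp

lemma pair (z α β : ℂ) (c : ℝ) (hc : c ^ 2 = 1 / 2) :
    -(1 / 2) * (Q z ((c : ℂ) * (α + star β)) ((c : ℂ) * (α + star β))
      + Q z ((c : ℂ) * (-Complex.I * α + Complex.I * star β))
        ((c : ℂ) * (-Complex.I * α + Complex.I * star β)))
      = 1 / 4 * ((‖z‖ ^ 3)⁻¹ * (‖α‖ ^ 2 + ‖β‖ ^ 2))
        + 3 / 2 * (((((‖z‖ ^ 5)⁻¹ : ℝ) : ℂ) * z ^ 2) * (star α * β)).re := by
  have ha : ‖α‖ ^ 2 = α.re * α.re + α.im * α.im := by
    rw [Complex.sq_norm, Complex.normSq_apply]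
  have hb : ‖β‖ ^ 2 = β.re * β.re + β.im * β.im := by
    rw [Complex.sq_norm, Complex.normSq_apply]
  rw [ha, hb]
  unfold Q
  rw [inv_norm z]
  generalize (‖z‖ ^ 5)⁻¹ = u
  simp only [Complex.star_def, Complex.mul_re, Complex.mul_im, Complex.conj_re, Complex.conj_im,
    Complex.add_re, Complex.add_im, Complex.neg_re, Complex.neg_im, Complex.I_re, Complex.I_im,
    Complex.ofReal_re, Complex.ofReal_im, sq]
  have h2 : c * c = 1 / 2 := by rw [← sq]; exact hc
  linear_combination (-(u * (-(3 / 2) * ((z.re * (α.re + β.re) + z.im * (α.im - β.im)) ^ 2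
    + (z.re * (α.im + β.im) + z.im * (β.re - α.re)) ^ 2)
    + 1 / 2 * (z.re * z.re + z.im * z.im) * ((α.re + β.re) ^ 2 + (α.im - β.im) ^ 2
      + (α.im + β.im) ^ 2 + (β.re - α.re) ^ 2)))) * h2

lemma ip_self {N : ℕ} (x : Fin N → ℂ) : ip x x = ∑ j, ‖x j‖ ^ 2 := by
  unfold ip
  apply Finset.sum_congr rfl
  intro j _
  rw [Complex.sq_norm, Complex.normSq_apply]
  simp only [Complex.star_def, Complex.mul_re, Complex.conj_re, Complex.conj_im]
  ring

lemma ip_add {N : ℕ} (x y z : Fin N → ℂ) : ip x (y + z) = ip x y + ip x z := by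
  unfold ip
  rw [← Finset.sum_add_distrib]
  apply Finset.sum_congr rfl
  intro j _
  rw [Pi.add_apply, mul_add, Complex.add_re]

end RelEqN.Small.ConvM

open RelEqN.Small.SymmM RelEqN.Small.ConvM in
/-- **(P7)** The form of the pencil in the coordinates `(a, b)`. -/
theorem RelEqN.Small.Spec.stmtConv : RelEqN.Small.Spec.StmtConv := by
  intro N q ν a b
  set c : ℝ := 1 / Real.sqrt 2 with hc
  have hc2 : c ^ 2 = 1 / 2 := by
    rw [hc, div_pow, one_pow, Real.sq_sqrt (by norm_num)]
  have hcc : c * c = 1 / 2 := by rw [← sq]; exact hc2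
  set x : Fin N → ℂ := fun j => (c : ℂ) * (a j + star (b j)) with hx
  set y : Fin N → ℂ := fun j => (c : ℂ) * (-Complex.I * a j + Complex.I * star (b j)) with hy
  have hnorm : ip x x + ip y y = ∑ j, ‖a j‖ ^ 2 + ∑ j, ‖b j‖ ^ 2 := by
    unfold ip
    rw [← Finset.sum_add_distrib, ← Finset.sum_add_distrib]
    apply Finset.sum_congr rfl
    intro j _
    rw [Complex.sq_norm, Complex.sq_norm, Complex.normSq_apply, Complex.normSq_apply]
    simp only [hx, hy, Complex.star_def, Complex.mul_re, Complex.mul_im, Complex.conj_re,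
      Complex.conj_im, Complex.add_re, Complex.add_im, Complex.neg_re, Complex.neg_im,
      Complex.I_re, Complex.I_im, Complex.ofReal_re, Complex.ofReal_im]
    linear_combination (2 * ((a j).re * (a j).re + (a j).im * (a j).im
      + ((b j).re * (b j).re + (b j).im * (b j).im))) * hcc
  have hJ : ip x (Jmap N y) = 1 / 2 * (∑ j, ‖a j‖ ^ 2 - ∑ j, ‖b j‖ ^ 2) := by
    unfold ip
    rw [← Finset.sum_sub_distrib, Finset.mul_sum]
    apply Finset.sum_congr rfl
    intro j _
    rw [Jmap_apply, Complex.sq_norm, Complex.sq_norm, Complex.normSq_apply, Complex.normSq_apply]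
    simp only [hx, hy, Complex.star_def, Complex.mul_re, Complex.mul_im, Complex.conj_re,
      Complex.conj_im, Complex.add_re, Complex.add_im, Complex.neg_re, Complex.neg_im,
      Complex.I_re, Complex.I_im, Complex.ofReal_re, Complex.ofReal_im]
    linear_combination (((a j).re * (a j).re + (a j).im * (a j).im
      - ((b j).re * (b j).re + (b j).im * (b j).im))) * hcc
  have hA : ip x (Amap (one N) q x) + ip y (Amap (one N) q y)
      = 1 / 4 * ∑ j, ∑ k, wt q j k * (‖a j - a k‖ ^ 2 + ‖b j - b k‖ ^ 2)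
        + 3 / 2 * (∑ j, ∑ k, wu q j k * (star (a j - a k) * (b j - b k))).re := by
    rw [ip_comm x, ip_comm y, ip_Amap, ip_Amap, ← mul_add, ← Finset.sum_add_distrib,
      Finset.mul_sum, Finset.mul_sum, Complex.re_sum, Finset.mul_sum, ← Finset.sum_add_distrib]
    apply Finset.sum_congr rfl
    intro j _
    rw [← Finset.sum_add_distrib, Finset.mul_sum, Finset.mul_sum, Complex.re_sum, Finset.mul_sum,
      ← Finset.sum_add_distrib]
    apply Finset.sum_congr rfl
    intro k _
    have e1 : x k - x j = (c : ℂ) * ((a k - a j) + star (b k - b j)) := by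
      simp only [hx, star_sub]
      ring
    have e2 : y k - y j = (c : ℂ) * (-Complex.I * (a k - a j) + Complex.I * star (b k - b j)) := by
      simp only [hy, star_sub]
      ring
    rw [e1, e2, pair _ _ _ c hc2]
    unfold wt wu
    rw [norm_sub_rev (q j) (q k), norm_sub_rev (a j) (a k), norm_sub_rev (b j) (b k)]
    have e3 : (q j - q k) ^ 2 = (q k - q j) ^ 2 := by ring
    have e4 : star (a j - a k) * (b j - b k) = star (a k - a j) * (b k - b j) := by
      simp only [star_sub]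
      ring
    rw [e3, e4]
  refine ⟨?_, hnorm⟩
  have hBx : ip x (Bm q x) = ip x (Amap (one N) q x) + ip x x := by
    rw [← ip_add]
    rfl
  have hBy : ip y (Bm q y) = ip y (Amap (one N) q y) + ip y y := by
    rw [← ip_add]
    rfl
  unfold Hf Rf
  rw [hJ, hBx, hBy]
  linear_combination (-1 : ℝ) * hA - (ν ^ 2 + 1) * hnorm
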