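import Pool.Agent.Lib.MP_b9e19b_mp.Small.Spec

set_option autoImplicit false

/-!
# Spectral stability implies the necessary conditions
-/

open Module

namespace RelEqN.Small.NecM

open RelEqN.Small.Spec

variable {N : ℕ}

lemma ip_add_left (x y z : Fin N → ℂ) : ip (x + y) z = ip x z + ip y z := by
  unfold ip
  rw [← Finset.sum_add_distrib]
  refine Finset.sum_congr rfl fun j _ => ?_
  rw [Pi.add_apply, star_add, add_mul, Complex.add_re]

lemma ip_add_right (x y z : Fin N → ℂ) : ip x (y + z) = ip x y + ip x z := by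
  unfold ip
  rw [← Finset.sum_add_distrib]
  refine Finset.sum_congr rfl fun j _ => ?_
  rw [Pi.add_apply, mul_add, Complex.add_re]

lemma ip_comm (x y : Fin N → ℂ) : ip x y = ip y x := by
  unfold ip
  refine Finset.sum_congr rfl fun j _ => ?_
  simp only [Complex.mul_re, Complex.star_def, Complex.conj_re, Complex.conj_im]
  ring

lemma ip_smul_left (c : ℝ) (x y : Fin N → ℂ) : ip (c • x) y = c * ip x y := by
  unfold ip
  rw [Finset.mul_sum]
  refine Finset.sum_congr rfl fun j _ => ?_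
  simp only [Pi.smul_apply, Complex.mul_re, Complex.star_def, Complex.conj_re, Complex.conj_im,
    Complex.smul_re, Complex.smul_im, smul_eq_mul]
  ring

lemma ip_smul_right (c : ℝ) (x y : Fin N → ℂ) : ip x (c • y) = c * ip x y := by
  rw [ip_comm, ip_smul_left, ip_comm]

lemma ip_pos {x : Fin N → ℂ} (hx : x ≠ 0) : 0 < ip x x := by
  have hsq : ∀ j, (star (x j) * x j).re = Complex.normSq (x j) := by
    intro j
    rw [Complex.star_def, ← Complex.normSq_eq_conj_mul_self, Complex.ofReal_re]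
  have hnn : ∀ j ∈ (Finset.univ : Finset (Fin N)), 0 ≤ (star (x j) * x j).re := by
    intro j _
    rw [hsq]
    exact Complex.normSq_nonneg _
  unfold ip
  rcases (Finset.sum_nonneg hnn).lt_or_eq with h1 | h1
  · exact h1
  · exfalso
    apply hx
    funext j
    have h4 := (Finset.sum_eq_zero_iff_of_nonneg hnn).1 h1.symm j (Finset.mem_univ j)
    rw [hsq] at h4
    exact Complex.normSq_eq_zero.1 h4

lemma ip_J (x y : Fin N → ℂ) : ip (Jmap N x) y = -ip x (Jmap N y) := by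
  unfold ip
  rw [← Finset.sum_neg_distrib]
  refine Finset.sum_congr rfl fun j _ => ?_
  simp only [Jmap_apply, Complex.mul_re, Complex.mul_im, Complex.star_def, Complex.conj_re,
    Complex.conj_im, Complex.I_re, Complex.I_im]
  ring

lemma Bm_symm (hs : StmtSymm) (q x y : Fin N → ℂ) : ip (Bm q x) y = ip x (Bm q y) := by
  unfold Bm
  rw [LinearMap.add_apply, LinearMap.add_apply, ip_add_left, ip_add_right, hs N q x y]
  rfl

/-- the inner product on `W` -/
noncomputable def gW (q : Fin N → ℂ) : Wsub q →ₗ[ℝ] Wsub q →ₗ[ℝ] ℝ :=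
  LinearMap.mk₂ ℝ (fun x y => ip (x : Fin N → ℂ) (y : Fin N → ℂ))
    (fun _ _ _ => ip_add_left _ _ _) (fun _ _ _ => ip_smul_left _ _ _)
    (fun _ _ _ => ip_add_right _ _ _) (fun _ _ _ => ip_smul_right _ _ _)

lemma gW_apply (q : Fin N → ℂ) (x y : Wsub q) : gW q x y = ip (x : Fin N → ℂ) y := rfl

lemma isCC {q : Fin N → ℂ} (h : IsRelEq (one N) 1 q) : CC q := by
  refine ⟨h.2.1, fun j => ?_⟩
  have h1 := h.eqn j
  rw [accel_full] at h1
  have h2 : ∑ k, (wt q j k : ℂ) * (q j - q k)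
      = -∑ k, (one N k / ‖q k - q j‖ ^ 3) • (q k - q j) := by
    rw [← Finset.sum_neg_distrib]
    refine Finset.sum_congr rfl fun k _ => ?_
    rw [wt, one, one_div, norm_sub_rev, Complex.real_smul]
    ring
  rw [h2, h1]
  simp

theorem stmtNec_aux (h2 : StmtTr4) (h3 : StmtRootSums) (h4 : StmtPencilPos) (h5 : StmtTrA2)
    (h6 : StmtSymm) (h7 : StmtConv) (h8 : StmtSplit) (h9 : StmtSubRoots) (h10 : StmtV0)
    (hN : 3 ≤ N) {q : Fin N → ℂ} (h : IsRelEq (one N) 1 q) (hst : SpectrallyStable (one N) 1 q) :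
    Nec q := by
  obtain ⟨BW, JW, hB, hJ, hf, t1, t2⟩ := h8 N hN q h
  have hJJ : ∀ v : Wsub q, JW (JW v) = -v := by
    intro v
    apply Subtype.ext
    rw [hJ, hJ, Jmap_sq]
    rfl
  unfold SpectrallyStable at hst
  rw [linearization_eq (one N) 1 q h.2.1] at hst
  have hroot : ∀ z : ℂ, ((blk BW JW 1).charpoly.map (algebraMap ℝ ℂ)).IsRoot z → z.re = 0 := by
    intro z hz
    refine hst z (h9 ((Fin N → ℂ) × (Fin N → ℂ)) (Wsub q × Wsub q) _ (blk BW JW 1)
      ((Wsub q).subtype.prodMap (Wsub q).subtype) ?_ ?_ z hz)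
    · rintro ⟨x, y⟩ ⟨x', y'⟩ hxy
      have e1 : (x : Fin N → ℂ) = x' := congrArg Prod.fst hxy
      have e2 : (y : Fin N → ℂ) = y' := congrArg Prod.snd hxy
      rw [Subtype.ext e1, Subtype.ext e2]
    · rintro ⟨x, y⟩
      rw [blk_apply, blk_apply]
      refine Prod.ext rfl ?_
      change (Amap (one N) q + ((1 : ℝ) ^ 2) • LinearMap.id : (Fin N → ℂ) →ₗ[ℝ] (Fin N → ℂ)) x
        - (2 * (1 : ℝ)) • Jmap N (y : Fin N → ℂ) = ((BW x - (2 * (1 : ℝ)) • JW y : Wsub q) : Fin N → ℂ)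
      rw [Submodule.coe_sub, Submodule.coe_smul, hB, hJ, one_pow, one_smul]
      rfl
  have hNr : ((2 * N - 4 : ℕ) : ℝ) = 2 * N - 4 := by
    rw [Nat.cast_sub (by omega)]
    push_cast
    ring
  have u1 : LinearMap.trace ℝ _ (blk BW JW 1 ∘ₗ blk BW JW 1) = -(2 * sS q) := by
    rw [trace_blk_sq BW JW 1 hJJ, hf, t1, hNr]
    unfold sS
    ring
  have u2 : LinearMap.trace ℝ _ ((blk BW JW 1 ∘ₗ blk BW JW 1) ∘ₗ (blk BW JW 1 ∘ₗ blk BW JW 1))
      = 2 * p4 q := by
    rw [h2 (Wsub q) BW JW hJJ, hf, t1, t2, hNr, h5 N q h.2.1]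
    unfold p4
    ring
  have hfr : finrank ℝ (Wsub q × Wsub q) = 2 * (2 * N - 4) := by
    rw [Module.finrank_prod, hf]
    ring
  obtain ⟨v1, v2, v3, v4⟩ := h3 (Wsub q × Wsub q) (blk BW JW 1) (sS q) (p4 q) (2 * N - 4) hfr hroot
    u1 u2
  rw [hNr] at v2
  refine ⟨isCC h, ?_, v2, v3, ?_⟩
  · unfold sS at v1
    linarith
  · intro ν hν0 hν1 hν a b
    obtain ⟨c1, c2⟩ := h7 N q ν a b
    rw [c1, ← c2]
    refine h10 N hN q h ν hν0 hν1 ?_ _ _
    intro x hx y hy
    have h12 := h4 (Wsub q) (gW q) BW JW (fun x y => by rw [gW_apply, gW_apply, ip_comm])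
      (fun x hx => by
        rw [gW_apply]
        refine ip_pos fun h0 => hx (Subtype.ext h0))
      (fun x y => by rw [gW_apply, gW_apply, hB, hB, Bm_symm h6])
      (fun x y => by rw [gW_apply, gW_apply, hJ, hJ, ip_J]) hJJ (sS q)
      (fun ν' _ hr => v4 ν' hr) ν hν0 hν ⟨x, hx⟩ ⟨y, hy⟩
    rw [gW_apply, gW_apply, gW_apply, gW_apply, gW_apply, hB, hB, hJ] at h12
    exact h12

end RelEqN.Small.NecM

namespace RelEqN.Small.Spec

/-- Spectral stability implies the necessary conditions. -/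
theorem stmtNec (h2 : StmtTr4) (h3 : StmtRootSums) (h4 : StmtPencilPos) (h5 : StmtTrA2)
    (h6 : StmtSymm) (h7 : StmtConv) (h8 : StmtSplit) (h9 : StmtSubRoots) (h10 : StmtV0) :
    StmtNec := by
  intro N hN q hq hst
  exact NecM.stmtNec_aux h2 h3 h4 h5 h6 h7 h8 h9 h10 hN hq hst

end RelEqN.Small.Spec
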