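import Pool.Agent.Lib.MP_b9e19b_mp.Small.Spec

set_option autoImplicit false
set_option linter.unusedSectionVars false

/-!
# Positivity of the quadratic pencil above all frequencies
-/

open Module

namespace RelEqN.Small.PencilPosM

/-- A real pair on which `f` acts as a rotation gives an imaginary root. -/
theorem root_of_pair {V : Type} [AddCommGroup V] [Module ℝ V] [FiniteDimensional ℝ V]
    (f : V →ₗ[ℝ] V) (X Y : V) (ν : ℝ) (h1 : f X = -(ν • Y)) (h2 : f Y = ν • X)
    (h0 : X ≠ 0 ∨ Y ≠ 0) : (f.charpoly.map (algebraMap ℝ ℂ)).IsRoot (ν * Complex.I) := by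
  classical
  let b := finBasis ℝ V
  set M := LinearMap.toMatrix b b f with hM
  set A := M.map (algebraMap ℝ ℂ) with hA
  set w : Fin (finrank ℝ V) → ℂ := fun i => (b.repr X i : ℂ) + Complex.I * (b.repr Y i : ℂ) with hw
  have hmul : ∀ Z : V, M.mulVec (b.repr Z) = b.repr (f Z) := fun Z =>
    LinearMap.toMatrix_mulVec_repr b b f Z
  have hAw : A.mulVec w = (ν * Complex.I) • w := by
    funext i
    have hx := congrFun (hmul X) i
    have hy := congrFun (hmul Y) i
    rw [h1] at hx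
    rw [h2] at hy
    simp only [Matrix.mulVec, dotProduct, map_neg, map_smul, Finsupp.coe_neg, Finsupp.coe_smul,
      Pi.neg_apply, Pi.smul_apply, smul_eq_mul] at hx hy
    simp only [Matrix.mulVec, dotProduct, Pi.smul_apply, smul_eq_mul, hA, Matrix.map_apply, hw,
      Complex.coe_algebraMap]
    have e1 : ∑ j, ((M i j : ℝ) : ℂ) * ((b.repr X j : ℂ) + Complex.I * (b.repr Y j : ℂ))
        = ((∑ j, M i j * b.repr X j : ℝ) : ℂ) + Complex.I * ((∑ j, M i j * b.repr Y j : ℝ) : ℂ) := by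
      push_cast
      rw [Finset.mul_sum, ← Finset.sum_add_distrib]
      exact Finset.sum_congr rfl fun j _ => by ring
    rw [e1, hx, hy]
    push_cast
    have hI : Complex.I * Complex.I = -1 := Complex.I_mul_I
    linear_combination (-(ν : ℂ) * (b.repr Y i : ℂ)) * hI
  have hw0 : w ≠ 0 := by
    intro h
    have h3 : ∀ i, b.repr X i = 0 ∧ b.repr Y i = 0 := by
      intro i
      have h4 := congrFun h i
      rw [hw] at h4
      simp only [Pi.zero_apply] at h4
      have h5 := congrArg Complex.re h4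
      have h6 := congrArg Complex.im h4
      simp at h5 h6
      exact ⟨h5, h6⟩
    have hX : X = 0 := b.repr.map_eq_zero_iff.1 (Finsupp.ext fun i => (h3 i).1)
    have hY : Y = 0 := b.repr.map_eq_zero_iff.1 (Finsupp.ext fun i => (h3 i).2)
    rcases h0 with h | h
    · exact h hX
    · exact h hY
  have hev : Module.End.HasEigenvector (Matrix.toLin' A) ((ν : ℂ) * Complex.I) w := by
    refine ⟨Module.End.mem_eigenspace_iff.2 ?_, hw0⟩
    rw [Matrix.toLin'_apply]
    exact hAw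
  have hsp : ((ν : ℂ) * Complex.I) ∈ spectrum ℂ A := by
    have h3 := (Module.End.hasEigenvalue_of_hasEigenvector hev).mem_spectrum
    rwa [Matrix.spectrum_toLin'] at h3
  rw [Matrix.mem_spectrum_iff_isRoot_charpoly, hA, Matrix.charpoly_map, hM,
    LinearMap.charpoly_toMatrix] at hsp
  exact hsp

section inner

variable {E : Type} [NormedAddCommGroup E] [InnerProductSpace ℝ E] [FiniteDimensional ℝ E]

/-- the form -/
noncomputable def Q (B J : E →ₗ[ℝ] E) (ν : ℝ) (x y : E) : ℝ :=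
  ν ^ 2 * (inner ℝ x x + inner ℝ y y) + inner ℝ x (B x) + inner ℝ y (B y) + 4 * ν * inner ℝ x (J y)

theorem Q_cont_nu (B J : E →ₗ[ℝ] E) (x y : E) : Continuous fun ν => Q B J ν x y := by
  unfold Q
  fun_prop

theorem Q_cont (B J : E →ₗ[ℝ] E) (ν : ℝ) : Continuous fun v : E × E => Q B J ν v.1 v.2 := by
  have hB : Continuous B := LinearMap.continuous_of_finiteDimensional B
  have hJ : Continuous J := LinearMap.continuous_of_finiteDimensional J
  unfold Q
  have h1 : Continuous fun v : E × E => B v.1 := hB.comp continuous_fst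
  have h2 : Continuous fun v : E × E => B v.2 := hB.comp continuous_snd
  have h3 : Continuous fun v : E × E => J v.2 := hJ.comp continuous_snd
  exact (((continuous_const.mul ((continuous_fst.inner continuous_fst).add
    (continuous_snd.inner continuous_snd))).add (continuous_fst.inner h1)).add
    (continuous_snd.inner h2)).add (continuous_const.mul (continuous_fst.inner h3))

theorem Q_smul (B J : E →ₗ[ℝ] E) (ν t : ℝ) (x y : E) :
    Q B J ν (t • x) (t • y) = t ^ 2 * Q B J ν x y := by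
  unfold Q
  simp only [map_smul, real_inner_smul_left, real_inner_smul_right]
  ring

theorem norm_J {J : E →ₗ[ℝ] E} (hJ : ∀ x y : E, inner ℝ (J x) y = -inner ℝ x (J y))
    (hJJ : ∀ v, J (J v) = -v) (y : E) : ‖J y‖ = ‖y‖ := by
  have h1 : ‖J y‖ ^ 2 = ‖y‖ ^ 2 := by
    rw [← real_inner_self_eq_norm_sq, ← real_inner_self_eq_norm_sq, hJ, hJJ, inner_neg_right,
      neg_neg]
  exact (pow_left_inj₀ (norm_nonneg _) (norm_nonneg _) two_ne_zero).1 h1

theorem inner_J {J : E →ₗ[ℝ] E} (hJ : ∀ x y : E, inner ℝ (J x) y = -inner ℝ x (J y))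
    (hJJ : ∀ v, J (J v) = -v) (x y : E) : |inner ℝ x (J y)| ≤ (‖x‖ ^ 2 + ‖y‖ ^ 2) / 2 := by
  have h1 := abs_real_inner_le_norm x (J y)
  rw [norm_J hJ hJJ] at h1
  nlinarith [sq_nonneg (‖x‖ - ‖y‖)]

theorem Q_large {B J : E →ₗ[ℝ] E} (hJ : ∀ x y : E, inner ℝ (J x) y = -inner ℝ x (J y))
    (hJJ : ∀ v, J (J v) = -v) : ∃ K : ℝ, 0 ≤ K ∧ ∀ μ, K ≤ μ → ∀ x y : E, 0 ≤ Q B J μ x y := by
  set B' : E →L[ℝ] E := LinearMap.toContinuousLinearMap B with hB'
  have hb0 : 0 ≤ ‖B'‖ := norm_nonneg _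
  refine ⟨2 + ‖B'‖, by linarith, ?_⟩
  intro μ hμ x y
  have key : ∀ z : E, -(‖B'‖ * ‖z‖ ^ 2) ≤ inner ℝ z (B z) := by
    intro z
    have h1 := abs_real_inner_le_norm z (B z)
    have h2 : ‖B z‖ ≤ ‖B'‖ * ‖z‖ := B'.le_opNorm z
    have h3 : ‖z‖ * ‖B z‖ ≤ ‖z‖ * (‖B'‖ * ‖z‖) := mul_le_mul_of_nonneg_left h2 (norm_nonneg _)
    have h4 := neg_abs_le (inner ℝ z (B z))
    nlinarith
  have hx := key x
  have hy := key y
  have hxy := inner_J hJ hJJ x y
  have h5 := neg_abs_le (inner ℝ x (J y))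
  have hμ0 : 0 ≤ μ := by linarith
  have h6 : -(2 * μ * (‖x‖ ^ 2 + ‖y‖ ^ 2)) ≤ 4 * μ * inner ℝ x (J y) := by
    have h7 : -((‖x‖ ^ 2 + ‖y‖ ^ 2) / 2) ≤ inner ℝ x (J y) := by linarith
    have h8 := mul_le_mul_of_nonneg_left h7 (by linarith : 0 ≤ 4 * μ)
    linarith
  unfold Q
  rw [real_inner_self_eq_norm_sq, real_inner_self_eq_norm_sq]
  have h9 : 0 ≤ (μ ^ 2 - ‖B'‖ - 2 * μ) * (‖x‖ ^ 2 + ‖y‖ ^ 2) := by
    refine mul_nonneg ?_ (by positivity)
    nlinarith
  nlinarith

theorem lin_zero {p q : ℝ} (h : ∀ t : ℝ, 0 ≤ 2 * t * p + t ^ 2 * q) : p = 0 := by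
  have h1 := discrim_le_zero (a := q) (b := 2 * p) (c := 0) (fun t => by
    have := h t
    nlinarith)
  unfold discrim at h1
  nlinarith [sq_nonneg p]

theorem kernel {B J : E →ₗ[ℝ] E} (hB : ∀ x y : E, inner ℝ (B x) y = inner ℝ x (B y))
    (hJ : ∀ x y : E, inner ℝ (J x) y = -inner ℝ x (J y)) {ν : ℝ}
    (hpos : ∀ x y : E, 0 ≤ Q B J ν x y) {x y : E} (h0 : Q B J ν x y = 0) :
    ν ^ 2 • x + B x + (2 * ν) • J y = 0 ∧ ν ^ 2 • y + B y - (2 * ν) • J x = 0 := by
  constructor
  · set u := ν ^ 2 • x + B x + (2 * ν) • J y with hu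
    have h1 : inner ℝ u u = 0 := by
      apply lin_zero (q := ν ^ 2 * inner ℝ u u + inner ℝ u (B u))
      intro t
      have h2 := hpos (x + t • u) y
      have h3 : Q B J ν (x + t • u) y = Q B J ν x y + 2 * t * inner ℝ u u +
          t ^ 2 * (ν ^ 2 * inner ℝ u u + inner ℝ u (B u)) := by
        have e1 : inner ℝ u u = ν ^ 2 * inner ℝ x u + inner ℝ x (B u) + 2 * ν * inner ℝ u (J y) := by
          conv_lhs => rw [hu]
          rw [inner_add_left, inner_add_left, real_inner_smul_left, real_inner_smul_left, hB,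
            real_inner_comm u (J y)]
        have e2 : inner ℝ u (B x) = inner ℝ x (B u) := by
          rw [← hB, real_inner_comm]
        have e3 : inner ℝ u x = inner ℝ x u := real_inner_comm _ _
        unfold Q
        simp only [map_add, map_smul, inner_add_left, inner_add_right, real_inner_smul_left,
          real_inner_smul_right, e2, e3]
        linear_combination (-2 * t) * e1
      rw [h3, h0] at h2
      linarith
    exact inner_self_eq_zero.1 h1
  · set u := ν ^ 2 • y + B y - (2 * ν) • J x with hu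
    have h1 : inner ℝ u u = 0 := by
      apply lin_zero (q := ν ^ 2 * inner ℝ u u + inner ℝ u (B u))
      intro t
      have h2 := hpos x (y + t • u)
      have h3 : Q B J ν x (y + t • u) = Q B J ν x y + 2 * t * inner ℝ u u +
          t ^ 2 * (ν ^ 2 * inner ℝ u u + inner ℝ u (B u)) := by
        have e1 : inner ℝ u u = ν ^ 2 * inner ℝ y u + inner ℝ y (B u) + 2 * ν * inner ℝ x (J u) := by
          conv_lhs => rw [hu]
          rw [inner_sub_left, inner_add_left, real_inner_smul_left, real_inner_smul_left, hB, hJ]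
          ring
        have e2 : inner ℝ u (B y) = inner ℝ y (B u) := by
          rw [← hB, real_inner_comm]
        have e3 : inner ℝ u y = inner ℝ y u := real_inner_comm _ _
        unfold Q
        simp only [map_add, map_smul, inner_add_left, inner_add_right, real_inner_smul_left,
          real_inner_smul_right, e2, e3]
        linear_combination (-2 * t) * e1
      rw [h3, h0] at h2
      linarith
    exact inner_self_eq_zero.1 h1

theorem exists_gap {B J : E →ₗ[ℝ] E} {ν : ℝ}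
    (hpos : ∀ x y : E, (x ≠ 0 ∨ y ≠ 0) → 0 < Q B J ν x y) :
    ∃ c : ℝ, 0 < c ∧ ∀ x y : E, c * (‖x‖ ^ 2 + ‖y‖ ^ 2) ≤ Q B J ν x y := by
  by_cases hE : ∃ v : E × E, v ≠ 0
  · obtain ⟨v0, hv0⟩ := hE
    have hne : (Metric.sphere (0 : E × E) 1).Nonempty := by
      refine ⟨‖v0‖⁻¹ • v0, ?_⟩
      rw [mem_sphere_zero_iff_norm, norm_smul, norm_inv, norm_norm,
        inv_mul_cancel₀ (norm_ne_zero_iff.2 hv0)]
    obtain ⟨u, hu, hmin⟩ := (isCompact_sphere (0 : E × E) 1).exists_isMinOn hne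
      (Q_cont B J ν).continuousOn
    rw [mem_sphere_zero_iff_norm] at hu
    have hu0 : u ≠ 0 := by
      rintro rfl
      simp at hu
    have huQ : 0 < Q B J ν u.1 u.2 := by
      apply hpos
      by_contra hcon
      push Not at hcon
      exact hu0 (Prod.ext hcon.1 hcon.2)
    refine ⟨Q B J ν u.1 u.2 / 2, by positivity, ?_⟩
    intro x y
    by_cases hv : (x, y) = ((0 : E), (0 : E))
    · have hx : x = 0 := congrArg Prod.fst hv
      have hy : y = 0 := congrArg Prod.snd hv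
      subst hx hy
      unfold Q
      simp
    · have hn : 0 < ‖((x, y) : E × E)‖ := norm_pos_iff.2 hv
      set r := ‖((x, y) : E × E)‖ with hr
      have hmem : r⁻¹ • ((x, y) : E × E) ∈ Metric.sphere (0 : E × E) 1 := by
        rw [mem_sphere_zero_iff_norm, norm_smul, norm_inv, ← hr, Real.norm_of_nonneg hn.le,
          inv_mul_cancel₀ hn.ne']
      have h1 := hmin hmem
      simp only [Set.mem_setOf_eq, Prod.smul_fst, Prod.smul_snd] at h1
      rw [Q_smul] at h1
      have h2 : r ^ 2 * Q B J ν u.1 u.2 ≤ Q B J ν x y := by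
        have h3 := mul_le_mul_of_nonneg_left h1 (sq_nonneg r)
        have h4 : r ^ 2 * ((r⁻¹) ^ 2 * Q B J ν x y) = Q B J ν x y := by
          field_simp
        rw [h4] at h3
        exact h3
      have hx : ‖x‖ ≤ r := norm_fst_le (x, y)
      have hy : ‖y‖ ≤ r := norm_snd_le (x, y)
      have hx2 : ‖x‖ ^ 2 ≤ r ^ 2 := pow_le_pow_left₀ (norm_nonneg _) hx 2
      have hy2 : ‖y‖ ^ 2 ≤ r ^ 2 := pow_le_pow_left₀ (norm_nonneg _) hy 2
      have h5 : Q B J ν u.1 u.2 / 2 * (‖x‖ ^ 2 + ‖y‖ ^ 2) ≤ Q B J ν u.1 u.2 / 2 * (2 * r ^ 2) :=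
        mul_le_mul_of_nonneg_left (by linarith) (by positivity)
      linarith
  · push Not at hE
    refine ⟨1, one_pos, ?_⟩
    intro x y
    have h1 := hE (x, y)
    have hx : x = 0 := congrArg Prod.fst h1
    have hy : y = 0 := congrArg Prod.snd h1
    subst hx hy
    unfold Q
    simp

theorem strict {B J : E →ₗ[ℝ] E} (hB : ∀ x y : E, inner ℝ (B x) y = inner ℝ x (B y))
    (hJ : ∀ x y : E, inner ℝ (J x) y = -inner ℝ x (J y)) (hJJ : ∀ v, J (J v) = -v) (s : ℝ)
    (hs : ∀ ν : ℝ, 0 ≤ ν → (((blk B J 1).charpoly.map (algebraMap ℝ ℂ)).IsRoot (ν * Complex.I)) →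
      ν ^ 2 ≤ s) (ν₀ : ℝ) (hν : 0 ≤ ν₀) (hsν : s < ν₀ ^ 2) (x y : E) : 0 ≤ Q B J ν₀ x y := by
  set S : Set ℝ := {ν | ν₀ ≤ ν ∧ ∀ μ, ν ≤ μ → ∀ x y : E, 0 ≤ Q B J μ x y} with hS
  obtain ⟨K, hK0, hK⟩ := Q_large (B := B) hJ hJJ
  have hSne : S.Nonempty := ⟨max ν₀ K, le_max_left _ _, fun μ hμ x y =>
    hK μ ((le_max_right _ _).trans hμ) x y⟩
  have hSb : BddBelow S := ⟨ν₀, fun ν h => h.1⟩
  set ν₁ := sInf S with hν₁
  have h01 : ν₀ ≤ ν₁ := le_csInf hSne fun ν h => h.1
  have hgt : ∀ μ, ν₁ < μ → ∀ x y : E, 0 ≤ Q B J μ x y := by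
    intro μ hμ x y
    obtain ⟨ν, hν, hνμ⟩ := exists_lt_of_csInf_lt hSne hμ
    exact hν.2 μ hνμ.le x y
  have hge : ∀ μ, ν₁ ≤ μ → ∀ x y : E, 0 ≤ Q B J μ x y := by
    intro μ hμ x y
    have hcl : IsClosed {μ | 0 ≤ Q B J μ x y} := isClosed_le continuous_const (Q_cont_nu B J x y)
    have hsub : Set.Ioi ν₁ ⊆ {μ | 0 ≤ Q B J μ x y} := fun t ht => hgt t ht x y
    have h1 := closure_minimal hsub hcl
    rw [closure_Ioi] at h1
    exact h1 hμ
  rcases h01.eq_or_lt with h2 | h2
  · exact hge ν₀ h2.ge x y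
  · exfalso
    have hν₁0 : 0 ≤ ν₁ := hν.trans h01
    have hpos : ∀ x y : E, (x ≠ 0 ∨ y ≠ 0) → 0 < Q B J ν₁ x y := by
      intro x y hxy
      rcases (hge ν₁ le_rfl x y).eq_or_lt with h3 | h3
      · exfalso
        obtain ⟨k1, k2⟩ := kernel hB hJ (hge ν₁ le_rfl) h3.symm
        have hroot := root_of_pair (blk B J 1) ((x, -(ν₁ • y)) : E × E) (y, ν₁ • x) ν₁
          (by
            rw [blk_apply]
            apply Prod.ext
            · rfl
            · simp only [mul_one, map_neg, map_smul, Prod.snd_neg, Prod.smul_snd]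
              rw [← sub_eq_zero, ← k1]
              module)
          (by
            rw [blk_apply]
            apply Prod.ext
            · rfl
            · simp only [mul_one, map_smul, Prod.smul_snd]
              rw [← sub_eq_zero, ← k2]
              module)
          (by
            rcases hxy with h | h
            · exact Or.inl fun h' => h (congrArg Prod.fst h')
            · exact Or.inr fun h' => h (congrArg Prod.fst h'))
        have h4 := hs ν₁ hν₁0 hroot
        nlinarith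
      · exact h3
    obtain ⟨c, hc, hgap⟩ := exists_gap hpos
    set δ := min (ν₁ - ν₀) (c / (2 * ν₁ + 2)) with hδ
    have hδ0 : 0 < δ := lt_min (by linarith) (by positivity)
    have hδ1 : δ ≤ ν₁ - ν₀ := min_le_left _ _
    have hδ2 : δ * (2 * ν₁ + 2) ≤ c := by
      rw [← le_div_iff₀ (by positivity)]
      exact min_le_right _ _
    have hmem : ν₁ - δ ∈ S := by
      refine ⟨by linarith, ?_⟩
      intro μ hμ x y
      rcases le_total ν₁ μ with h5 | h5
      · exact hge μ h5 x y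
      · have hμ0 : 0 ≤ μ := by linarith
        have h6 := hgap x y
        have h7 := inner_J hJ hJJ x y
        have h8 : Q B J μ x y = Q B J ν₁ x y - (ν₁ - μ) * ((ν₁ + μ) * (‖x‖ ^ 2 + ‖y‖ ^ 2) +
            4 * inner ℝ x (J y)) := by
          unfold Q
          rw [real_inner_self_eq_norm_sq, real_inner_self_eq_norm_sq]
          ring
        have h9 : (ν₁ + μ) * (‖x‖ ^ 2 + ‖y‖ ^ 2) + 4 * inner ℝ x (J y) ≤
            (2 * ν₁ + 2) * (‖x‖ ^ 2 + ‖y‖ ^ 2) := by
          have h10 := le_abs_self (inner ℝ x (J y))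
          have h11 : 0 ≤ ‖x‖ ^ 2 + ‖y‖ ^ 2 := by positivity
          nlinarith
        have h12 : 0 ≤ ‖x‖ ^ 2 + ‖y‖ ^ 2 := by positivity
        have h13 : (ν₁ - μ) * ((ν₁ + μ) * (‖x‖ ^ 2 + ‖y‖ ^ 2) + 4 * inner ℝ x (J y)) ≤
            (ν₁ - μ) * ((2 * ν₁ + 2) * (‖x‖ ^ 2 + ‖y‖ ^ 2)) :=
          mul_le_mul_of_nonneg_left h9 (by linarith)
        have h14 : (ν₁ - μ) * ((2 * ν₁ + 2) * (‖x‖ ^ 2 + ‖y‖ ^ 2)) ≤
            δ * ((2 * ν₁ + 2) * (‖x‖ ^ 2 + ‖y‖ ^ 2)) :=
          mul_le_mul_of_nonneg_right (by linarith) (by positivity)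
        have h15 : δ * ((2 * ν₁ + 2) * (‖x‖ ^ 2 + ‖y‖ ^ 2)) ≤ c * (‖x‖ ^ 2 + ‖y‖ ^ 2) := by
          rw [← mul_assoc]
          exact mul_le_mul_of_nonneg_right hδ2 h12
        rw [h8]
        linarith
    have := csInf_le hSb hmem
    linarith

theorem main {B J : E →ₗ[ℝ] E} (hB : ∀ x y : E, inner ℝ (B x) y = inner ℝ x (B y))
    (hJ : ∀ x y : E, inner ℝ (J x) y = -inner ℝ x (J y)) (hJJ : ∀ v, J (J v) = -v) (s : ℝ)
    (hs : ∀ ν : ℝ, 0 ≤ ν → (((blk B J 1).charpoly.map (algebraMap ℝ ℂ)).IsRoot (ν * Complex.I)) →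
      ν ^ 2 ≤ s) (ν₀ : ℝ) (hν : 0 ≤ ν₀) (hsν : s ≤ ν₀ ^ 2) (x y : E) : 0 ≤ Q B J ν₀ x y := by
  have hcl : IsClosed {μ | 0 ≤ Q B J μ x y} := isClosed_le continuous_const (Q_cont_nu B J x y)
  have hsub : Set.Ioi ν₀ ⊆ {μ | 0 ≤ Q B J μ x y} := fun t ht =>
    strict hB hJ hJJ s hs t (hν.trans (le_of_lt ht)) (lt_of_le_of_lt hsν
      (pow_lt_pow_left₀ ht hν two_ne_zero)) x y
  have h1 := closure_minimal hsub hcl
  rw [closure_Ioi] at h1
  exact h1 (Set.mem_Ici.2 le_rfl)

end inner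

end RelEqN.Small.PencilPosM

namespace RelEqN.Small.Spec

theorem stmtPencilPos : StmtPencilPos := by
  intro E _ _ _ g B J hg hpos hB hJ hJJ s hs ν hν hsν x y
  let core : InnerProductSpace.Core ℝ E :=
    { inner := fun x y => g x y
      conj_inner_symm := fun x y => by simpa using hg y x
      re_inner_nonneg := fun x => by
        by_cases hx : x = 0
        · simp [hx]
        · simpa using (hpos x hx).le
      add_left := fun x y z => by simp
      smul_left := fun x y r => by simp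
      definite := fun x hx => by
        by_contra hne
        exact absurd hx (hpos x hne).ne' }
  letI : NormedAddCommGroup E := core.toNormedAddCommGroup
  letI : InnerProductSpace ℝ E := InnerProductSpace.ofCore core.toCore
  exact PencilPosM.main (E := E) (B := B) (J := J) hB hJ hJJ s hs ν hν hsν x y

end RelEqN.Small.Spec
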