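import Pool.Agent.Lib.MP_b9e19b_mp.Small.Spec

set_option autoImplicit false

/-!
# Small/P/RootSums: a real operator with purely imaginary spectrum in even dimension
-/

open Module

namespace RelEqN.Small.RootSumsM

lemma sum_sq (R : Multiset ℂ) (h : ∀ z ∈ R, z.re = 0) :
    (R.map (fun z => z ^ 2)).sum = -(((R.map (fun z => z.im ^ 2)).sum : ℝ) : ℂ) := by
  induction R using Multiset.induction_on with
  | empty => simp
  | cons a s ih =>
    have h1 := h a (Multiset.mem_cons_self a s)
    have h2 := ih fun z hz => h z (Multiset.mem_cons_of_mem hz)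
    rw [Multiset.map_cons, Multiset.map_cons, Multiset.sum_cons, Multiset.sum_cons, h2]
    have h3 : a ^ 2 = -((a.im ^ 2 : ℝ) : ℂ) := by
      apply Complex.ext
      · simp [sq, h1]
      · simp [sq, h1]
    rw [h3]
    push_cast
    ring

lemma sum_four (R : Multiset ℂ) (h : ∀ z ∈ R, z.re = 0) :
    ((R.map (fun z => z ^ 2)).map (fun z => z ^ 2)).sum
      = (((R.map (fun z => z.im ^ 4)).sum : ℝ) : ℂ) := by
  induction R using Multiset.induction_on with
  | empty => simp
  | cons a s ih =>
    have h1 := h a (Multiset.mem_cons_self a s)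
    have h2 := ih fun z hz => h z (Multiset.mem_cons_of_mem hz)
    rw [Multiset.map_cons, Multiset.map_cons, Multiset.map_cons, Multiset.sum_cons,
      Multiset.sum_cons, h2]
    have h3 : a ^ 2 = -((a.im ^ 2 : ℝ) : ℂ) := by
      apply Complex.ext
      · simp [sq, h1]
      · simp [sq, h1]
    rw [h3]
    push_cast
    ring

lemma var_nonneg (R : Multiset ℂ) (c : ℝ) :
    0 ≤ (R.map (fun z => z.im ^ 4)).sum - 2 * c * (R.map (fun z => z.im ^ 2)).sum
      + c ^ 2 * (Multiset.card R : ℝ) := by
  induction R using Multiset.induction_on with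
  | empty => simp
  | cons a s ih =>
    rw [Multiset.map_cons, Multiset.map_cons, Multiset.sum_cons, Multiset.sum_cons,
      Multiset.card_cons]
    push_cast
    nlinarith [sq_nonneg (a.im ^ 2 - c)]

lemma four_le (R : Multiset ℂ) (s : ℝ) (h : ∀ z ∈ R, z.im ^ 2 ≤ s) :
    (R.map (fun z => z.im ^ 4)).sum ≤ s * (R.map (fun z => z.im ^ 2)).sum := by
  induction R using Multiset.induction_on with
  | empty => simp
  | cons a t ih =>
    have h1 := h a (Multiset.mem_cons_self a t)
    have h2 := ih fun z hz => h z (Multiset.mem_cons_of_mem hz)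
    rw [Multiset.map_cons, Multiset.map_cons, Multiset.sum_cons, Multiset.sum_cons]
    nlinarith [mul_le_mul_of_nonneg_right h1 (sq_nonneg a.im)]

lemma sq_sum_nonneg (R : Multiset ℂ) : 0 ≤ (R.map (fun z => z.im ^ 2)).sum := by
  apply Multiset.sum_nonneg
  intro x hx
  obtain ⟨z, _, rfl⟩ := Multiset.mem_map.1 hx
  exact sq_nonneg _

lemma two_le (R : Multiset ℂ) (z w : ℂ) (hz : z ∈ R) (hw : w ∈ R) (hzw : w ≠ z) :
    z.im ^ 2 + w.im ^ 2 ≤ (R.map (fun z => z.im ^ 2)).sum := by
  obtain ⟨R', rfl⟩ := Multiset.exists_cons_of_mem hz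
  rw [Multiset.mem_cons] at hw
  rcases hw with hw | hw
  · exact absurd hw hzw
  · obtain ⟨R'', rfl⟩ := Multiset.exists_cons_of_mem hw
    rw [Multiset.map_cons, Multiset.map_cons, Multiset.sum_cons, Multiset.sum_cons]
    have := sq_sum_nonneg R''
    linarith

lemma trace_map {n : ℕ} (M : Matrix (Fin n) (Fin n) ℝ) :
    ((M.trace : ℝ) : ℂ) = (M.map (algebraMap ℝ ℂ)).trace := by
  rw [← Complex.coe_algebraMap, ← RingHom.coe_coe]
  simp [Matrix.trace]

lemma conj_root (P : Polynomial ℝ) (z : ℂ) (h : (P.map (algebraMap ℝ ℂ)).IsRoot z) :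
    (P.map (algebraMap ℝ ℂ)).IsRoot ((starRingEnd ℂ) z) := by
  rw [Polynomial.IsRoot.def, Polynomial.eval_map_algebraMap] at h ⊢
  rw [Polynomial.aeval_conj, h, map_zero]

end RelEqN.Small.RootSumsM

open RelEqN.Small.RootSumsM in
/-- **(P3)** Root sums of a real operator with purely imaginary spectrum. -/
theorem RelEqN.Small.Spec.stmtRootSums (h : RelEqN.Small.Spec.StmtRootsSq) :
    RelEqN.Small.Spec.StmtRootSums := by
  intro V _ _ _ f s p d hd hre hs hp
  classical
  let b := finBasis ℝ V
  set M := LinearMap.toMatrix b b f with hM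
  set A := M.map (algebraMap ℝ ℂ) with hA
  have hch : A.charpoly = f.charpoly.map (algebraMap ℝ ℂ) := by
    rw [hA, Matrix.charpoly_map, hM, LinearMap.charpoly_toMatrix]
  have hcard : Multiset.card A.charpoly.roots = 2 * d := by
    rw [Polynomial.splits_iff_card_roots.1 (IsAlgClosed.splits A.charpoly),
      Matrix.charpoly_natDegree_eq_dim, Fintype.card_fin, hd]
  have hne : A.charpoly ≠ 0 := A.charpoly_monic.ne_zero
  have hroot : ∀ z ∈ A.charpoly.roots, (f.charpoly.map (algebraMap ℝ ℂ)).IsRoot z := by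
    intro z hz
    rw [← hch]
    exact Polynomial.isRoot_of_mem_roots hz
  have hR : ∀ z ∈ A.charpoly.roots, z.re = 0 := fun z hz => hre z (hroot z hz)
  have hsum2 : (A.charpoly.roots.map (fun z => z.im ^ 2)).sum = 2 * s := by
    have h1 : (((LinearMap.trace ℝ V (f ∘ₗ f)) : ℝ) : ℂ) = (A * A).trace := by
      rw [LinearMap.trace_eq_matrix_trace ℝ b, LinearMap.toMatrix_comp b b b, trace_map,
        Matrix.map_mul]
    rw [Matrix.trace_eq_sum_roots_charpoly, h, sum_sq _ hR, hs] at h1
    have h2 : (-(2 * s) : ℝ) = -((A.charpoly.roots.map (fun z => z.im ^ 2)).sum) := by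
      exact_mod_cast h1
    linarith
  have hsum4 : (A.charpoly.roots.map (fun z => z.im ^ 4)).sum = 2 * p := by
    have h1 : (((LinearMap.trace ℝ V ((f ∘ₗ f) ∘ₗ (f ∘ₗ f))) : ℝ) : ℂ)
        = ((A * A) * (A * A)).trace := by
      rw [LinearMap.trace_eq_matrix_trace ℝ b, LinearMap.toMatrix_comp b b b,
        LinearMap.toMatrix_comp b b b, trace_map, Matrix.map_mul, Matrix.map_mul]
    rw [Matrix.trace_eq_sum_roots_charpoly, h, h, sum_four _ hR, hp] at h1
    have h2 : (2 * p : ℝ) = (A.charpoly.roots.map (fun z => z.im ^ 4)).sum := by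
      exact_mod_cast h1
    linarith
  have hs0 : 0 ≤ s := by
    have := sq_sum_nonneg A.charpoly.roots
    rw [hsum2] at this
    linarith
  have hle : ∀ z ∈ A.charpoly.roots, z.im ^ 2 ≤ s := by
    intro z hz
    by_cases h0 : z.im = 0
    · rw [h0]
      simpa using hs0
    · have h1 : (starRingEnd ℂ) z ∈ A.charpoly.roots := by
        rw [Polynomial.mem_roots hne, hch]
        exact conj_root _ _ (hroot z hz)
      have h2 : (starRingEnd ℂ) z ≠ z := by
        intro h3
        apply h0
        have h4 := congrArg Complex.im h3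
        rw [Complex.conj_im] at h4
        linarith
      have h3 := two_le _ z _ hz h1 h2
      rw [hsum2, Complex.conj_im] at h3
      nlinarith
  have hvar := fun c : ℝ => var_nonneg A.charpoly.roots c
  refine ⟨hs0, ?_, ?_, ?_⟩
  · rcases Nat.eq_zero_or_pos d with h0 | h0
    · have h1 := hvar 0
      have h2 : A.charpoly.roots = 0 := by
        rw [← Multiset.card_eq_zero, hcard, h0]
      rw [h2] at hsum2
      simp only [Multiset.map_zero, Multiset.sum_zero] at hsum2
      have h3 : s = 0 := by linarith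
      rw [h3, h0]
      simp
    · have hd0 : (0 : ℝ) < d := by exact_mod_cast h0
      have h1 := hvar (s / d)
      rw [hsum2, hsum4, hcard] at h1
      push_cast at h1
      have h2 : (d : ℝ) * (2 * p - 2 * (s / d) * (2 * s) + (s / d) ^ 2 * (2 * d))
          = 2 * (d * p) - 2 * s ^ 2 := by
        field_simp
        ring
      have h3 := mul_nonneg hd0.le h1
      rw [h2] at h3
      linarith
  · have h1 := four_le _ s hle
    rw [hsum2, hsum4] at h1
    nlinarith
  · intro ν hν
    have h1 : ((ν : ℂ) * Complex.I) ∈ A.charpoly.roots := by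
      rw [Polynomial.mem_roots hne, hch]
      exact hν
    have h2 := hle _ h1
    simpa using h2
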