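import Pool.Agent.Lib.MP_b9e19b_mp.Small.Spec

set_option autoImplicit false

/-!
# Small/P/RootsSq: the eigenvalues of `M²` are the squares of the eigenvalues of `M`
-/

namespace RelEqN.Small.RootsSqM

open Polynomial

lemma prod_roots_eval {n : ℕ} (M : Matrix (Fin n) (Fin n) ℂ) (x : ℂ) :
    M.charpoly.eval x = (M.charpoly.roots.map (fun z => x - z)).prod := by
  have h1 := (IsAlgClosed.splits M.charpoly).eq_prod_roots_of_monic M.charpoly_monic
  conv_lhs => rw [h1]
  rw [Polynomial.eval_multiset_prod, Multiset.map_map]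
  simp

lemma card_roots {n : ℕ} (M : Matrix (Fin n) (Fin n) ℂ) : Multiset.card M.charpoly.roots = n := by
  have h1 := Polynomial.splits_iff_card_roots.1 (IsAlgClosed.splits M.charpoly)
  rw [h1, Matrix.charpoly_natDegree_eq_dim, Fintype.card_fin]

lemma eval_sq {n : ℕ} (M : Matrix (Fin n) (Fin n) ℂ) (x : ℂ) :
    (M * M).charpoly.eval (x ^ 2) = (M.charpoly.roots.map (fun z => x ^ 2 - z ^ 2)).prod := by
  have h0 : (Matrix.scalar (Fin n) (x ^ 2) - M * M)
      = (Matrix.scalar (Fin n) x - M) * (-(Matrix.scalar (Fin n) (-x) - M)) := by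
    have h1 : Matrix.scalar (Fin n) x * M = M * Matrix.scalar (Fin n) x :=
      (Matrix.scalar_commute x (fun r => mul_comm _ _) M).eq
    have h2 : Matrix.scalar (Fin n) (-x) = - Matrix.scalar (Fin n) x := map_neg _ _
    have h3 : Matrix.scalar (Fin n) (x ^ 2) = Matrix.scalar (Fin n) x * Matrix.scalar (Fin n) x := by
      rw [map_pow, pow_two]
    rw [h2, h3, neg_sub, sub_neg_eq_add, sub_mul, mul_add, mul_add, h1]
    abel
  rw [Matrix.eval_charpoly, h0, Matrix.det_mul, Matrix.det_neg, ← Matrix.eval_charpoly,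
    ← Matrix.eval_charpoly, prod_roots_eval M x, prod_roots_eval M (-x), Fintype.card_fin]
  have h4 : (M.charpoly.roots.map (fun z => -x - z)).prod
      = (-1) ^ n * (M.charpoly.roots.map (fun z => x + z)).prod := by
    have h5 : (fun z : ℂ => -x - z) = fun z => (-1 : ℂ) * (x + z) := by
      funext z
      ring
    rw [h5, Multiset.prod_map_mul, Multiset.map_const', Multiset.prod_replicate, card_roots]
  rw [h4, ← mul_assoc ((-1 : ℂ) ^ n), ← mul_pow, neg_one_mul, neg_neg, one_pow, one_mul,
    ← Multiset.prod_map_mul]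
  congr 1
  apply Multiset.map_congr rfl
  intro z _
  ring

end RelEqN.Small.RootsSqM

open RelEqN.Small.RootsSqM in
/-- **(P1)** The eigenvalues of `M²` are the squares of the eigenvalues of `M`. -/
theorem RelEqN.Small.Spec.stmtRootsSq : RelEqN.Small.Spec.StmtRootsSq := by
  intro n M
  have h : (M * M).charpoly
      = ((M.charpoly.roots.map (fun z => z ^ 2)).map (fun a => Polynomial.X - Polynomial.C a)).prod := by
    apply Polynomial.funext
    intro y
    obtain ⟨x, hx⟩ := IsAlgClosed.exists_pow_nat_eq y (n := 2) (by norm_num)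
    rw [← hx, eval_sq, Polynomial.eval_multiset_prod, Multiset.map_map, Multiset.map_map]
    simp
  rw [h, Polynomial.roots_multiset_prod_X_sub_C]
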