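import Pool.Agent.Lib.MP_b9e19b_mp.Small.Spec

set_option autoImplicit false

/-!
# The splitting `ℂ^N = V₀ ⊕ W`
-/

open Module

namespace RelEqN.Small.SplitM

open RelEqN.Small.Spec

variable {N : ℕ}

lemma ip_eq_re (x y : Fin N → ℂ) : ip x y = (∑ j, star (x j) * y j).re := by
  unfold ip
  rw [Complex.re_sum]

lemma ip_add_left (x y z : Fin N → ℂ) : ip (x + y) z = ip x z + ip y z := by
  unfold ip
  rw [← Finset.sum_add_distrib]
  refine Finset.sum_congr rfl fun j _ => ?_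
  rw [Pi.add_apply, star_add, add_mul, Complex.add_re]

lemma ip_add_right (x y z : Fin N → ℂ) : ip x (y + z) = ip x y + ip x z := by
  unfold ip
  rw [← Finset.sum_add_distrib]
  refine Finset.sum_congr rfl fun j _ => ?_
  rw [Pi.add_apply, mul_add, Complex.add_re]

lemma ip_comm (x y : Fin N → ℂ) : ip x y = ip y x := by
  unfold ip
  refine Finset.sum_congr rfl fun j _ => ?_
  simp only [Complex.mul_re, Complex.star_def, Complex.conj_re, Complex.conj_im]
  ring

lemma ip_self_nonneg (x : Fin N → ℂ) : 0 ≤ ip x x := by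
  unfold ip
  refine Finset.sum_nonneg fun j _ => ?_
  simp only [Complex.mul_re, Complex.star_def, Complex.conj_re, Complex.conj_im]
  nlinarith [mul_self_nonneg (x j).re, mul_self_nonneg (x j).im]

/-- `V₀` is orthogonal to `W`. -/
lemma ip_emb_W {q : Fin N → ℂ} (u : Fin 2 → ℂ) {w : Fin N → ℂ} (hw : w ∈ Wsub q) :
    ip (emb q u) w = 0 := by
  rw [ip_eq_re]
  have h : ∑ j, star (emb q u j) * w j
      = star (u 0) * ∑ j, w j + star (u 1) * ∑ j, star (q j) * w j := by
    rw [Finset.mul_sum, Finset.mul_sum, ← Finset.sum_add_distrib]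
    refine Finset.sum_congr rfl fun j _ => ?_
    rw [emb_apply, star_add, star_mul]
    ring
  have h1 : ∑ j, w j = 0 := hw.1
  have h2 : ∑ j, star (q j) * w j = 0 := hw.2
  rw [h, h1, h2]
  simp

lemma Bm_emb {q : Fin N → ℂ} (h : IsRelEq (one N) 1 q) (u : Fin 2 → ℂ) :
    Bm q (emb q u) = emb q (B0 1 u) := by
  have h1 := Amap_emb h u
  rw [one_pow, one_smul] at h1
  exact h1

lemma J_emb (q : Fin N → ℂ) (u : Fin 2 → ℂ) :
    Jmap N (emb q u) = emb q (fun i => Complex.I * u i) := by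
  funext j
  rw [Jmap_apply, emb_apply, emb_apply]
  ring

lemma J_mem {q w : Fin N → ℂ} (hw : w ∈ Wsub q) : Jmap N w ∈ Wsub q := by
  have h1 : ∑ j, w j = 0 := hw.1
  have h2 : ∑ j, star (q j) * w j = 0 := hw.2
  constructor
  · simp only [Jmap_apply]
    rw [← Finset.mul_sum, h1, mul_zero]
  · simp only [Jmap_apply]
    have : ∑ j, star (q j) * (Complex.I * w j) = Complex.I * ∑ j, star (q j) * w j := by
      rw [Finset.mul_sum]
      refine Finset.sum_congr rfl fun j _ => ?_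
      ring
    rw [this, h2, mul_zero]

lemma Bm_symm (hs : StmtSymm) (q x y : Fin N → ℂ) : ip (Bm q x) y = ip x (Bm q y) := by
  unfold Bm
  rw [LinearMap.add_apply, LinearMap.add_apply, ip_add_left, ip_add_right, hs N q x y]
  rfl

lemma sum_zero {q : Fin N → ℂ} (h : IsRelEq (one N) 1 q) : ∑ j, q j = 0 := by
  have h1 := com_zero h
  simpa [one] using h1

lemma I_pos (hN : 3 ≤ N) {q : Fin N → ℂ} (h : IsRelEq (one N) 1 q) : 0 < ∑ j, ‖q j‖ ^ 2 := by
  have hnn : ∀ j ∈ (Finset.univ : Finset (Fin N)), 0 ≤ ‖q j‖ ^ 2 := fun j _ => by positivity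
  rcases (Finset.sum_nonneg hnn).lt_or_eq with h1 | h1
  · exact h1
  · exfalso
    have h2 := (Finset.sum_eq_zero_iff_of_nonneg hnn).1 h1.symm
    have h3 : q ⟨0, by omega⟩ = q ⟨1, by omega⟩ := by
      have ha := h2 ⟨0, by omega⟩ (Finset.mem_univ _)
      have hb := h2 ⟨1, by omega⟩ (Finset.mem_univ _)
      rw [sq_eq_zero_iff, norm_eq_zero] at ha hb
      rw [ha, hb]
    have h4 := h.2.1 h3
    simp at h4

/-- the decomposition `ℂ^N = V₀ + W` -/
lemma decomp (hN : 3 ≤ N) {q : Fin N → ℂ} (h : IsRelEq (one N) 1 q) (x : Fin N → ℂ) :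
    ∃ u : Fin 2 → ℂ, ∃ w ∈ Wsub q, x = emb q u + w := by
  have hq0 := sum_zero h
  have hI := I_pos hN h
  have hIc : ((∑ j, ‖q j‖ ^ 2 : ℝ) : ℂ) ≠ 0 := by exact_mod_cast hI.ne'
  have hNc : (N : ℂ) ≠ 0 := by
    have : N ≠ 0 := by omega
    exact_mod_cast this
  have hII : ∑ j, star (q j) * q j = ((∑ j, ‖q j‖ ^ 2 : ℝ) : ℂ) := by
    rw [Complex.ofReal_sum]
    refine Finset.sum_congr rfl fun j _ => ?_
    rw [Complex.star_def, Complex.conj_mul']
    push_cast
    rfl
  have hqs : ∑ j, star (q j) = 0 := by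
    rw [← star_sum, hq0, star_zero]
  refine ⟨![(∑ j, x j) / N, (∑ j, star (q j) * x j) / ((∑ j, ‖q j‖ ^ 2 : ℝ) : ℂ)],
    x - emb q ![(∑ j, x j) / N, (∑ j, star (q j) * x j) / ((∑ j, ‖q j‖ ^ 2 : ℝ) : ℂ)], ?_, ?_⟩
  · constructor
    · simp only [Pi.sub_apply, emb_apply, Matrix.cons_val_zero, Matrix.cons_val_one]
      rw [Finset.sum_sub_distrib, Finset.sum_add_distrib, ← Finset.mul_sum, hq0, mul_zero, add_zero,
        Finset.sum_const, Finset.card_univ, Fintype.card_fin, nsmul_eq_mul, mul_div_cancel₀ _ hNc,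
        sub_self]
    · simp only [Pi.sub_apply, emb_apply, Matrix.cons_val_zero, Matrix.cons_val_one]
      have h1 : ∀ c e : ℂ, ∑ j, star (q j) * (x j - (c + e * q j))
          = ∑ j, star (q j) * x j - c * ∑ j, star (q j) - e * ∑ j, star (q j) * q j := by
        intro c e
        rw [Finset.mul_sum, Finset.mul_sum, ← Finset.sum_sub_distrib, ← Finset.sum_sub_distrib]
        refine Finset.sum_congr rfl fun j _ => ?_
        ring
      rw [h1, hqs, hII, mul_zero, sub_zero, div_mul_cancel₀ _ hIc, sub_self]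
  · rw [add_sub_cancel]


/-- `W` is the orthogonal complement of `V₀`. -/
lemma mem_W {q w : Fin N → ℂ} (hw : ∀ u : Fin 2 → ℂ, ip (emb q u) w = 0) : w ∈ Wsub q := by
  have h : ∀ u : Fin 2 → ℂ, ip (emb q u) w
      = (star (u 0) * ∑ j, w j + star (u 1) * ∑ j, star (q j) * w j).re := by
    intro u
    rw [ip_eq_re, Finset.mul_sum, Finset.mul_sum, ← Finset.sum_add_distrib]
    congr 1
    refine Finset.sum_congr rfl fun j _ => ?_
    rw [emb_apply, star_add, star_mul]
    ring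
  have hz : ∀ z : ℂ, (star z * z).re = 0 → z = 0 := by
    intro z hz
    rw [Complex.star_def, ← Complex.normSq_eq_conj_mul_self, Complex.ofReal_re] at hz
    exact Complex.normSq_eq_zero.1 hz
  constructor
  · have h1 := hw ![∑ j, w j, 0]
    rw [h] at h1
    simp only [Matrix.cons_val_zero, Matrix.cons_val_one, star_zero, zero_mul, add_zero] at h1
    exact hz _ h1
  · have h1 := hw ![0, ∑ j, star (q j) * w j]
    rw [h] at h1
    simp only [Matrix.cons_val_zero, Matrix.cons_val_one, star_zero, zero_mul, zero_add] at h1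
    exact hz _ h1

lemma Bm_mem (hs : StmtSymm) {q : Fin N → ℂ} (h : IsRelEq (one N) 1 q) {w : Fin N → ℂ}
    (hw : w ∈ Wsub q) : Bm q w ∈ Wsub q := by
  refine mem_W fun u => ?_
  rw [← Bm_symm hs, Bm_emb h, ip_emb_W _ hw]

/-- the parametrisation -/
noncomputable def eMap (q : Fin N → ℂ) : ((Fin 2 → ℂ) × Wsub q) →ₗ[ℝ] (Fin N → ℂ) :=
  (emb q).coprod (Wsub q).subtype

lemma eMap_apply (q : Fin N → ℂ) (p : (Fin 2 → ℂ) × Wsub q) :
    eMap q p = emb q p.1 + (p.2 : Fin N → ℂ) := rfl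

lemma eMap_bij (hN : 3 ≤ N) {q : Fin N → ℂ} (h : IsRelEq (one N) 1 q) :
    Function.Bijective (eMap q) := by
  constructor
  · rw [injective_iff_map_eq_zero]
    rintro ⟨u, w⟩ hu
    rw [eMap_apply] at hu
    have h1 : ip (emb q u) (emb q u) = 0 := by
      have h2 : ip (emb q u) (emb q u + (w : Fin N → ℂ)) = 0 := by
        rw [hu]
        unfold ip
        simp
      rwa [ip_add_right, ip_emb_W u w.2, add_zero] at h2
    have h3 : emb q u = 0 := by
      funext j
      unfold ip at h1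
      have hnn : ∀ j ∈ (Finset.univ : Finset (Fin N)), 0 ≤ (star (emb q u j) * emb q u j).re := by
        intro j _
        rw [Complex.star_def, ← Complex.normSq_eq_conj_mul_self, Complex.ofReal_re]
        exact Complex.normSq_nonneg _
      have h4 := (Finset.sum_eq_zero_iff_of_nonneg hnn).1 h1 j (Finset.mem_univ j)
      rw [Complex.star_def, ← Complex.normSq_eq_conj_mul_self, Complex.ofReal_re] at h4
      exact Complex.normSq_eq_zero.1 h4
    have h5 : u = 0 := (injective_iff_map_eq_zero (emb q)).1 (emb_injective (by omega) q h.2.1) u h3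
    have h6 : (w : Fin N → ℂ) = 0 := by
      rw [h3, zero_add] at hu
      exact hu
    have h7 : w = 0 := by
      apply Subtype.ext
      exact h6
    rw [h5, h7]
    rfl
  · intro x
    obtain ⟨u, w, hw, rfl⟩ := decomp hN h x
    exact ⟨(u, ⟨w, hw⟩), rfl⟩

lemma trace_B0_sq : LinearMap.trace ℝ _ (B0 1 ∘ₗ B0 1) = 11 := by
  have h0 : B0 1 ∘ₗ B0 1 = LinearMap.pi ![(LinearMap.proj 0 : (Fin 2 → ℂ) →ₗ[ℝ] ℂ),
      (9 : ℝ) • ((Complex.reLm.smulRight (1 : ℂ)) ∘ₗ (LinearMap.proj 1 : (Fin 2 → ℂ) →ₗ[ℝ] ℂ))] := by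
    apply LinearMap.ext
    intro u
    funext i
    fin_cases i
    · change B0 1 (B0 1 u) 0 = _
      rw [B0_zero, B0_zero]
      simp
    · change B0 1 (B0 1 u) 1 = _
      rw [B0_one, B0_one]
      simp
      ring
  rw [h0, trace_pi, Fin.sum_univ_two]
  simp only [Matrix.cons_val_zero, Matrix.cons_val_one]
  have h1 : (LinearMap.proj 0 : (Fin 2 → ℂ) →ₗ[ℝ] ℂ) ∘ₗ LinearMap.single ℝ (fun _ => ℂ) 0
      = (LinearMap.id : ℂ →ₗ[ℝ] ℂ) := by
    apply LinearMap.ext
    intro h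
    simp
  have h2 : ((9 : ℝ) • ((Complex.reLm.smulRight (1 : ℂ)) ∘ₗ
      (LinearMap.proj 1 : (Fin 2 → ℂ) →ₗ[ℝ] ℂ))) ∘ₗ LinearMap.single ℝ (fun _ => ℂ) 1
      = (9 : ℝ) • (Complex.reLm.smulRight (1 : ℂ)) := by
    apply LinearMap.ext
    intro h
    simp
  rw [h1, h2, map_smul, LinearMap.trace_id, LinearMap.trace_smulRight, Complex.finrank_real_complex]
  norm_num

lemma trace_A {q : Fin N → ℂ} : LinearMap.trace ℝ _ (Amap (one N) q) = T q := by
  rw [trace_Amap]
  unfold T wt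
  refine Finset.sum_congr rfl fun j _ => ?_
  rw [sum_erase_eq]
  · refine Finset.sum_congr rfl fun k _ => ?_
    rw [one, one_div, norm_sub_rev]
  · simp

lemma finrank_pi (n : ℕ) : finrank ℝ (Fin n → ℂ) = 2 * n := by
  rw [Module.finrank_pi_fintype]
  simp [Complex.finrank_real_complex]
  ring

theorem stmtSplit_aux (hs : StmtSymm) (hN : 3 ≤ N) {q : Fin N → ℂ} (h : IsRelEq (one N) 1 q) :
    ∃ BW JW : (Wsub q) →ₗ[ℝ] (Wsub q),
    (∀ w : Wsub q, ((BW w : Wsub q) : Fin N → ℂ) = Bm q w) ∧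
    (∀ w : Wsub q, ((JW w : Wsub q) : Fin N → ℂ) = Jmap N w) ∧
    finrank ℝ (Wsub q) = 2 * N - 4 ∧
    LinearMap.trace ℝ _ BW = T q + 2 * N - 5 ∧
    LinearMap.trace ℝ _ (BW ∘ₗ BW) = LinearMap.trace ℝ _ (Amap (one N) q ∘ₗ Amap (one N) q)
      + 2 * T q + 2 * N - 11 := by
  let BW : (Wsub q) →ₗ[ℝ] (Wsub q) := (Bm q).restrict fun w hw => Bm_mem hs h hw
  let JW : (Wsub q) →ₗ[ℝ] (Wsub q) := (Jmap N).restrict fun w hw => J_mem hw
  have hB : ∀ w : Wsub q, ((BW w : Wsub q) : Fin N → ℂ) = Bm q w := fun w => rfl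
  have hJ : ∀ w : Wsub q, ((JW w : Wsub q) : Fin N → ℂ) = Jmap N w := fun w => rfl
  let e : ((Fin 2 → ℂ) × Wsub q) ≃ₗ[ℝ] (Fin N → ℂ) := LinearEquiv.ofBijective (eMap q) (eMap_bij hN h)
  have he : ∀ p, e p = emb q p.1 + (p.2 : Fin N → ℂ) := fun p => rfl
  have hconj : ∀ p, Bm q (e p) = e ((B0 1).prodMap BW p) := by
    intro p
    rw [he, he, map_add, Bm_emb h]
    rfl
  have hc1 : Bm q = e.conj ((B0 1).prodMap BW) := by
    apply LinearMap.ext
    intro x
    rw [LinearEquiv.conj_apply_apply, ← hconj, LinearEquiv.apply_symm_apply]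
  have hc2 : Bm q ∘ₗ Bm q = e.conj ((B0 1 ∘ₗ B0 1).prodMap (BW ∘ₗ BW)) := by
    apply LinearMap.ext
    intro x
    rw [LinearEquiv.conj_apply_apply, LinearMap.comp_apply]
    have h1 : (B0 1 ∘ₗ B0 1).prodMap (BW ∘ₗ BW) (e.symm x)
        = (B0 1).prodMap BW ((B0 1).prodMap BW (e.symm x)) := rfl
    rw [h1, ← hconj, ← hconj, LinearEquiv.apply_symm_apply]
  have hf : finrank ℝ (Wsub q) = 2 * N - 4 := by
    have h1 := e.finrank_eq
    rw [Module.finrank_prod, finrank_pi, finrank_pi] at h1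
    omega
  have t1 : LinearMap.trace ℝ _ (Bm q) = 5 + LinearMap.trace ℝ _ BW := by
    rw [hc1, LinearMap.trace_conj', LinearMap.trace_prodMap', trace_B0]
    ring
  have t2 : LinearMap.trace ℝ _ (Bm q ∘ₗ Bm q) = 11 + LinearMap.trace ℝ _ (BW ∘ₗ BW) := by
    rw [hc2, LinearMap.trace_conj', LinearMap.trace_prodMap', trace_B0_sq]
  have t3 : LinearMap.trace ℝ _ (Bm q) = T q + 2 * N := by
    unfold Bm
    rw [map_add, trace_A, LinearMap.trace_id, finrank_pi]
    push_cast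
    ring
  have t4 : LinearMap.trace ℝ _ (Bm q ∘ₗ Bm q)
      = LinearMap.trace ℝ _ (Amap (one N) q ∘ₗ Amap (one N) q) + 2 * T q + 2 * N := by
    have h1 : Bm q ∘ₗ Bm q = Amap (one N) q ∘ₗ Amap (one N) q + (2 : ℝ) • Amap (one N) q
        + LinearMap.id := by
      apply LinearMap.ext
      intro x
      unfold Bm
      simp only [LinearMap.comp_apply, LinearMap.add_apply, LinearMap.id_apply, map_add,
        two_smul]
      abel
    rw [h1, map_add, map_add, map_smul, trace_A, LinearMap.trace_id, finrank_pi, smul_eq_mul]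
    push_cast
    ring
  refine ⟨BW, JW, hB, hJ, hf, ?_, ?_⟩
  · linarith
  · linarith

end RelEqN.Small.SplitM

namespace RelEqN.Small.Spec

/-- The splitting `ℂ^N = V₀ ⊕ W`. -/
theorem stmtSplit (h : StmtSymm) : StmtSplit := by
  intro N hN q hq
  exact SplitM.stmtSplit_aux h hN hq

end RelEqN.Small.Spec
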