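import Pool.Agent.Lib.MP_b9e19b_mp.Small.Spec

set_option autoImplicit false

/-!
# Small/P/Symm: the Hessian `A` is symmetric for unit masses
-/

namespace RelEqN.Small.SymmM

/-- the bilinear form of `gD z` -/
noncomputable def Q (z h v : ℂ) : ℝ :=
  (‖z‖ ^ 3)⁻¹ * (h.re * v.re + h.im * v.im)
    - 3 * (‖z‖ ^ 5)⁻¹ * (z.re * h.re + z.im * h.im) * (z.re * v.re + z.im * v.im)

lemma re_star_gD (z h v : ℂ) : (star (gD z h) * v).re = Q z h v := by
  rw [gD_apply]
  unfold Q
  simp only [Complex.star_def, Complex.mul_re, Complex.conj_re, Complex.conj_im, Complex.sub_re,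
    Complex.sub_im, Complex.smul_re, Complex.smul_im, smul_eq_mul]
  ring

lemma Q_symm (z h v : ℂ) : Q z h v = Q z v h := by
  unfold Q
  ring

lemma Q_neg (z h v : ℂ) : Q (-z) (-h) v = -Q z h v := by
  unfold Q
  rw [norm_neg]
  simp only [Complex.neg_re, Complex.neg_im]
  ring

lemma Q_sub (z h v w : ℂ) : Q z h (v - w) = Q z h v - Q z h w := by
  unfold Q
  simp only [Complex.sub_re, Complex.sub_im]
  ring

lemma Amap_full {N : ℕ} (q x : Fin N → ℂ) (j : Fin N) :
    Amap (one N) q x j = ∑ k, gD (q k - q j) (x k - x j) := by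
  rw [Amap_apply]
  rw [← Finset.add_sum_erase Finset.univ _ (Finset.mem_univ j)]
  rw [sub_self (x j), map_zero, zero_add]
  apply Finset.sum_congr rfl
  intro k _
  simp [one]

lemma ip_Amap {N : ℕ} (q x y : Fin N → ℂ) :
    ip (Amap (one N) q x) y
      = -(1 / 2) * ∑ j, ∑ k, Q (q k - q j) (x k - x j) (y k - y j) := by
  have h1 : ip (Amap (one N) q x) y = ∑ j, ∑ k, Q (q k - q j) (x k - x j) (y j) := by
    unfold ip
    apply Finset.sum_congr rfl
    intro j _
    rw [Amap_full, star_sum, Finset.sum_mul, Complex.re_sum]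
    apply Finset.sum_congr rfl
    intro k _
    exact re_star_gD _ _ _
  have h2 : ip (Amap (one N) q x) y = -∑ j, ∑ k, Q (q k - q j) (x k - x j) (y k) := by
    rw [h1, Finset.sum_comm, ← Finset.sum_neg_distrib]
    apply Finset.sum_congr rfl
    intro j _
    rw [← Finset.sum_neg_distrib]
    apply Finset.sum_congr rfl
    intro k _
    rw [← Q_neg, neg_sub, neg_sub]
  have h3 : ∑ j, ∑ k, Q (q k - q j) (x k - x j) (y k - y j)
      = ∑ j, ∑ k, Q (q k - q j) (x k - x j) (y k)
        - ∑ j, ∑ k, Q (q k - q j) (x k - x j) (y j) := by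
    rw [← Finset.sum_sub_distrib]
    apply Finset.sum_congr rfl
    intro j _
    rw [← Finset.sum_sub_distrib]
    apply Finset.sum_congr rfl
    intro k _
    exact Q_sub _ _ _ _
  rw [h3]
  linarith

lemma ip_comm {N : ℕ} (x y : Fin N → ℂ) : ip x y = ip y x := by
  unfold ip
  apply Finset.sum_congr rfl
  intro j _
  simp only [Complex.star_def, Complex.mul_re, Complex.conj_re, Complex.conj_im]
  ring

end RelEqN.Small.SymmM

open RelEqN.Small.SymmM in
/-- **(P6)** `A` is symmetric for unit masses. -/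
theorem RelEqN.Small.Spec.stmtSymm : RelEqN.Small.Spec.StmtSymm := by
  intro N q x y
  rw [ip_comm x, ip_Amap, ip_Amap]
  congr 1
  apply Finset.sum_congr rfl
  intro j _
  apply Finset.sum_congr rfl
  intro k _
  exact Q_symm _ _ _
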