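import Pool.Agent.Lib.MP_b9e19b_mp.Small.Spec

set_option autoImplicit false

/-!
# Small/P/Tr4: the trace of the fourth power of the first-order operator
-/

open Module

namespace RelEqN.Small.Tr4M

variable {E : Type} [AddCommGroup E] [Module ℝ E]

/-- the block operator `(a, b; c, d)` -/
noncomputable def blo (a b c d : E →ₗ[ℝ] E) : (E × E) →ₗ[ℝ] (E × E) :=
  (a ∘ₗ LinearMap.fst ℝ E E + b ∘ₗ LinearMap.snd ℝ E E).prod
    (c ∘ₗ LinearMap.fst ℝ E E + d ∘ₗ LinearMap.snd ℝ E E)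

lemma blo_apply (a b c d : E →ₗ[ℝ] E) (p : E × E) :
    blo a b c d p = (a p.1 + b p.2, c p.1 + d p.2) := rfl

lemma blo_sq (a b c d : E →ₗ[ℝ] E) :
    blo a b c d ∘ₗ blo a b c d
      = blo (a ∘ₗ a + b ∘ₗ c) (a ∘ₗ b + b ∘ₗ d) (c ∘ₗ a + d ∘ₗ c) (c ∘ₗ b + d ∘ₗ d) := by
  apply LinearMap.ext
  intro p
  rw [LinearMap.comp_apply, blo_apply, blo_apply, blo_apply]
  apply Prod.ext
  · simp only [LinearMap.add_apply, LinearMap.comp_apply, map_add]
    abel
  · simp only [LinearMap.add_apply, LinearMap.comp_apply, map_add]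
    abel

end RelEqN.Small.Tr4M

open RelEqN.Small.Tr4M in
/-- **(P2)** Trace of the fourth power of the first-order operator. -/
theorem RelEqN.Small.Spec.stmtTr4 : RelEqN.Small.Spec.StmtTr4 := by
  intro E _ _ _ B J hJ
  have hJJ : J ∘ₗ J = -LinearMap.id := by
    apply LinearMap.ext
    intro v
    exact hJ v
  have h1 : blk B J 1 ∘ₗ blk B J 1
      = blo B (-((2 : ℝ) • J)) (-((2 : ℝ) • (J ∘ₗ B))) (B - (4 : ℝ) • LinearMap.id) := by
    apply LinearMap.ext
    intro p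
    simp only [LinearMap.comp_apply, blk_apply, blo_apply]
    apply Prod.ext
    · change B p.1 - (2 * (1 : ℝ)) • J p.2 = B p.1 + (-((2 : ℝ) • J p.2))
      rw [sub_eq_add_neg, mul_one]
    · change B p.2 - (2 * (1 : ℝ)) • J (B p.1 - (2 * (1 : ℝ)) • J p.2) =
        -((2 : ℝ) • J (B p.1)) + (B p.2 - (4 : ℝ) • p.2)
      rw [map_sub, map_smul, hJ, smul_sub, smul_neg, smul_neg, smul_smul, mul_one,
        show (2 : ℝ) * 2 = 4 by norm_num]
      abel
  have h2 : LinearMap.trace ℝ E (B ∘ₗ B + (-((2 : ℝ) • J)) ∘ₗ (-((2 : ℝ) • (J ∘ₗ B))))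
      = LinearMap.trace ℝ E (B ∘ₗ B) - 4 * LinearMap.trace ℝ E B := by
    have e : (-((2 : ℝ) • J)) ∘ₗ (-((2 : ℝ) • (J ∘ₗ B))) = -((4 : ℝ) • B) := by
      apply LinearMap.ext
      intro v
      simp only [LinearMap.comp_apply, LinearMap.neg_apply, LinearMap.smul_apply, map_neg, map_smul,
        hJ, smul_neg, neg_neg, smul_smul]
      norm_num
    rw [map_add, e, map_neg, map_smul, smul_eq_mul]
    ring
  have h3 : LinearMap.trace ℝ E ((-((2 : ℝ) • (J ∘ₗ B))) ∘ₗ (-((2 : ℝ) • J))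
        + (B - (4 : ℝ) • LinearMap.id) ∘ₗ (B - (4 : ℝ) • LinearMap.id))
      = LinearMap.trace ℝ E (B ∘ₗ B) - 12 * LinearMap.trace ℝ E B + 16 * (finrank ℝ E : ℝ) := by
    have e1 : (-((2 : ℝ) • (J ∘ₗ B))) ∘ₗ (-((2 : ℝ) • J)) = (4 : ℝ) • ((J ∘ₗ B) ∘ₗ J) := by
      apply LinearMap.ext
      intro v
      simp only [LinearMap.comp_apply, LinearMap.neg_apply, LinearMap.smul_apply, map_neg, map_smul,
        smul_neg, neg_neg, smul_smul]
      norm_num
    have e2 : (B - (4 : ℝ) • LinearMap.id) ∘ₗ (B - (4 : ℝ) • LinearMap.id)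
        = B ∘ₗ B - (8 : ℝ) • B + (16 : ℝ) • LinearMap.id := by
      apply LinearMap.ext
      intro v
      simp only [LinearMap.comp_apply, LinearMap.sub_apply, LinearMap.add_apply,
        LinearMap.smul_apply, LinearMap.id_apply, map_sub, map_smul, smul_sub, smul_smul]
      rw [show (8 : ℝ) = 4 + 4 by norm_num, add_smul, show (4 : ℝ) * 4 = 16 by norm_num]
      abel
    have e3 : LinearMap.trace ℝ E ((J ∘ₗ B) ∘ₗ J) = -LinearMap.trace ℝ E B := by
      rw [LinearMap.trace_comp_comm' J (J ∘ₗ B), ← LinearMap.comp_assoc, hJJ,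
        LinearMap.neg_comp, LinearMap.id_comp, map_neg]
    rw [map_add, e1, e2, map_smul, e3, map_add, map_sub, map_smul, map_smul, LinearMap.trace_id,
      smul_eq_mul, smul_eq_mul, smul_eq_mul]
    ring
  rw [h1, blo_sq]
  unfold blo
  rw [trace_prod4, h2, h3]
  ring
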