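import Pool.Agent.Lib.MP_b9e19b_mp.Small.Spec

set_option autoImplicit false

/-!
# The trace of the square of the Hessian operator for unit masses
-/

open Module

namespace RelEqN.Small.TrA2M

variable {N : ℕ}

/-- The real-linear map `ξ ↦ α ξ + β conj ξ`. -/
noncomputable def Lm (α β : Fin N → Fin N → ℂ) : (Fin N → ℂ) →ₗ[ℝ] (Fin N → ℂ) where
  toFun ξ := fun j => ∑ k, (α j k * ξ k + β j k * star (ξ k))
  map_add' x y := by
    funext j
    simp only [Pi.add_apply, star_add, ← Finset.sum_add_distrib]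
    refine Finset.sum_congr rfl fun k _ => ?_
    ring
  map_smul' c x := by
    funext j
    simp only [Pi.smul_apply, RingHom.id_apply, Complex.real_smul, star_mul', Finset.mul_sum]
    refine Finset.sum_congr rfl fun k _ => ?_
    have : star ((c : ℝ) : ℂ) = (c : ℂ) := Complex.conj_ofReal c
    rw [this]
    ring

lemma Lm_apply (α β : Fin N → Fin N → ℂ) (ξ : Fin N → ℂ) (j : Fin N) :
    Lm α β ξ j = ∑ k, (α j k * ξ k + β j k * star (ξ k)) := rfl

/-- The real-linear map `h ↦ α h + β conj h` of `ℂ`. -/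
noncomputable def L1 (α β : ℂ) : ℂ →ₗ[ℝ] ℂ where
  toFun h := α * h + β * star h
  map_add' x y := by
    rw [star_add]
    ring
  map_smul' c x := by
    have : star ((c : ℝ) : ℂ) = (c : ℂ) := Complex.conj_ofReal c
    simp only [RingHom.id_apply, Complex.real_smul, star_mul', this]
    ring

lemma L1_apply (α β h : ℂ) : L1 α β h = α * h + β * star h := rfl

lemma trace_L1 (α β : ℂ) : LinearMap.trace ℝ ℂ (L1 α β) = 2 * α.re := by
  rw [LinearMap.trace_eq_matrix_trace ℝ Complex.basisOneI, Matrix.trace_fin_two]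
  simp only [LinearMap.toMatrix_apply, Complex.coe_basisOneI, Complex.coe_basisOneI_repr, L1_apply]
  simp
  ring

lemma trace_Lm (α β : Fin N → Fin N → ℂ) :
    LinearMap.trace ℝ _ (Lm α β) = 2 * ∑ j, (α j j).re := by
  have h1 : Lm α β = LinearMap.pi fun j => ∑ k, (L1 (α j k) (β j k)) ∘ₗ
      (LinearMap.proj k : (Fin N → ℂ) →ₗ[ℝ] ℂ) := by
    apply LinearMap.ext
    intro ξ
    funext j
    rw [LinearMap.pi_apply, LinearMap.sum_apply, Lm_apply]
    rfl
  rw [h1, trace_pi, Finset.mul_sum]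
  refine Finset.sum_congr rfl fun j _ => ?_
  rw [← trace_L1 (α j j) (β j j)]
  congr 1
  apply LinearMap.ext
  intro h
  rw [LinearMap.comp_apply, LinearMap.sum_apply, Finset.sum_eq_single j]
  · rw [LinearMap.comp_apply, LinearMap.proj_apply, LinearMap.single_apply, Pi.single_eq_same]
  · intro k _ hkj
    rw [LinearMap.comp_apply, LinearMap.proj_apply, LinearMap.single_apply,
      Pi.single_eq_of_ne hkj, map_zero]
  · intro hj
    exact absurd (Finset.mem_univ j) hj

lemma comp_Lm (α β α' β' : Fin N → Fin N → ℂ) :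
    Lm α β ∘ₗ Lm α' β' = Lm (fun j k => ∑ l, (α j l * α' l k + β j l * star (β' l k)))
      (fun j k => ∑ l, (α j l * β' l k + β j l * star (α' l k))) := by
  apply LinearMap.ext
  intro ξ
  funext j
  rw [LinearMap.comp_apply, Lm_apply, Lm_apply]
  simp only [Lm_apply]
  have e1 : ∀ l, α j l * (∑ k, (α' l k * ξ k + β' l k * star (ξ k))) +
      β j l * star (∑ k, (α' l k * ξ k + β' l k * star (ξ k))) =
      ∑ k, ((α j l * α' l k + β j l * star (β' l k)) * ξ k +
        (α j l * β' l k + β j l * star (α' l k)) * star (ξ k)) := by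
    intro l
    rw [star_sum, Finset.mul_sum, Finset.mul_sum, ← Finset.sum_add_distrib]
    refine Finset.sum_congr rfl fun k _ => ?_
    rw [star_add, star_mul', star_mul', star_star]
    ring
  rw [Finset.sum_congr rfl fun l _ => e1 l, Finset.sum_comm]
  refine Finset.sum_congr rfl fun k _ => ?_
  rw [Finset.sum_mul, Finset.sum_mul, ← Finset.sum_add_distrib]

lemma trace_comp_Lm (α β : Fin N → Fin N → ℂ) :
    LinearMap.trace ℝ _ (Lm α β ∘ₗ Lm α β) =
      2 * ∑ j, ∑ k, (α j k * α k j + β j k * star (β k j)).re := by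
  rw [comp_Lm, trace_Lm]
  congr 1
  refine Finset.sum_congr rfl fun j _ => ?_
  rw [Complex.re_sum]

lemma gD_conj (z h : ℂ) : gD z h = -(((1 / 2 * (‖z‖ ^ 3)⁻¹ : ℝ) : ℂ) * h +
    ((3 / 2 : ℝ) : ℂ) * ((((‖z‖ ^ 5)⁻¹ : ℝ) : ℂ) * z ^ 2) * star h) := by
  rcases eq_or_ne z 0 with rfl | hz
  · rw [gD_apply]
    simp
  have hz0 : ‖z‖ ≠ 0 := norm_ne_zero_iff.2 hz
  have h3 : (‖z‖ ^ 3)⁻¹ = (‖z‖ ^ 5)⁻¹ * (z.re ^ 2 + z.im ^ 2) := by
    have : z.re ^ 2 + z.im ^ 2 = ‖z‖ ^ 2 := by
      rw [← Complex.normSq_eq_norm_sq, Complex.normSq_apply]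
      ring
    rw [this]
    field_simp
  rw [gD_apply, h3]
  apply Complex.ext
  · simp only [Complex.real_smul, Complex.sub_re, Complex.neg_re, Complex.add_re, Complex.mul_re,
      Complex.mul_im, Complex.ofReal_re, Complex.ofReal_im, pow_two, Complex.star_def,
      Complex.conj_re, Complex.conj_im]
    ring
  · simp only [Complex.real_smul, Complex.sub_im, Complex.neg_im, Complex.add_im, Complex.mul_re,
      Complex.mul_im, Complex.ofReal_re, Complex.ofReal_im, pow_two, Complex.star_def,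
      Complex.conj_re, Complex.conj_im]
    ring

lemma wu_self (q : Fin N → ℂ) (j : Fin N) : wu q j j = 0 := by
  simp [wu]

lemma wt_self (q : Fin N → ℂ) (j : Fin N) : wt q j j = 0 := by
  simp [wt]

lemma wt_comm (q : Fin N → ℂ) (j k : Fin N) : wt q j k = wt q k j := by
  simp only [wt, norm_sub_rev]

lemma wu_comm (q : Fin N → ℂ) (j k : Fin N) : wu q j k = wu q k j := by
  simp only [wu]
  rw [norm_sub_rev (q j) (q k)]
  ring

lemma norm_wu (q : Fin N → ℂ) (j k : Fin N) : ‖wu q j k‖ = wt q j k := by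
  unfold wu wt
  rcases eq_or_ne (q j - q k) 0 with h | h
  · rw [h]
    simp
  have h0 : ‖q j - q k‖ ≠ 0 := norm_ne_zero_iff.2 h
  rw [norm_mul, Complex.norm_real, Real.norm_eq_abs, norm_pow, abs_of_nonneg (by positivity)]
  field_simp

/-- the coefficients of `A` -/
noncomputable def al (q : Fin N → ℂ) (j k : Fin N) : ℂ :=
  ((1 / 2 * ((if j = k then dd q j else 0) - wt q j k) : ℝ) : ℂ)

/-- the conjugate coefficients of `A` -/
noncomputable def be (q : Fin N → ℂ) (j k : Fin N) : ℂ :=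
  ((3 / 2 : ℝ) : ℂ) * ((if j = k then cc q j else 0) - wu q j k)

lemma Amap_eq (q : Fin N → ℂ) : Amap (one N) q = Lm (al q) (be q) := by
  apply LinearMap.ext
  intro ξ
  funext j
  rw [Amap_apply, Lm_apply]
  have e1 : ∀ k, (one N k) • gD (q k - q j) (ξ k - ξ j) =
      ((1 / 2 * wt q j k : ℝ) : ℂ) * (ξ j - ξ k) +
        ((3 / 2 : ℝ) : ℂ) * wu q j k * (star (ξ j) - star (ξ k)) := by
    intro k
    unfold one wt wu
    rw [one_smul, gD_conj, norm_sub_rev (q k) (q j), star_sub]
    ring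
  have e2 : ∑ k ∈ Finset.univ.erase j, (one N k) • gD (q k - q j) (ξ k - ξ j) =
      ∑ k, (one N k) • gD (q k - q j) (ξ k - ξ j) := by
    apply Finset.sum_erase
    rw [e1, sub_self, sub_self]
    ring
  rw [e2, Finset.sum_congr rfl fun k _ => e1 k]
  have e3 : ∀ k, al q j k * ξ k + be q j k * star (ξ k) =
      (if j = k then ((1 / 2 * dd q j : ℝ) : ℂ) * ξ k + ((3 / 2 : ℝ) : ℂ) * cc q j * star (ξ k)
        else 0) - (((1 / 2 * wt q j k : ℝ) : ℂ) * ξ k + ((3 / 2 : ℝ) : ℂ) * wu q j k * star (ξ k)) := by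
    intro k
    unfold al be
    split_ifs with h
    · push_cast
      ring
    · push_cast
      ring
  rw [Finset.sum_congr rfl fun k _ => e3 k, Finset.sum_sub_distrib, Finset.sum_ite_eq,
    if_pos (Finset.mem_univ j)]
  unfold dd cc
  rw [Finset.mul_sum, Finset.mul_sum, Complex.ofReal_sum, Finset.sum_mul, Finset.sum_mul,
    ← Finset.sum_add_distrib, ← Finset.sum_sub_distrib]
  refine Finset.sum_congr rfl fun k _ => ?_
  ring

end RelEqN.Small.TrA2M

namespace RelEqN.Small.Spec

open RelEqN.Small.TrA2M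

theorem stmtTrA2 : StmtTrA2 := by
  intro N q _
  rw [Amap_eq, trace_comp_Lm]
  have h1 : ∀ j k, (al q j k * al q k j + be q j k * star (be q k j)).re =
      (if j = k then 1 / 4 * dd q j ^ 2 + 9 / 4 * ‖cc q j‖ ^ 2 else 0) +
        5 / 2 * wt q j k ^ 2 := by
    intro j k
    by_cases hjk : j = k
    · subst hjk
      unfold al be
      rw [if_pos rfl, if_pos rfl, if_pos rfl, wt_self, wu_self, sub_zero, sub_zero,
        ← Complex.ofReal_mul, Complex.add_re, Complex.ofReal_re, Complex.star_def,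
        Complex.mul_conj, Complex.ofReal_re, map_mul, Complex.normSq_ofReal,
        Complex.normSq_eq_norm_sq]
      ring
    · have hkj : k ≠ j := fun h => hjk h.symm
      unfold al be
      rw [if_neg hjk, if_neg hkj, if_neg hjk, if_neg hkj, if_neg hjk, wt_comm q k j, wu_comm q k j,
        ← Complex.ofReal_mul, Complex.add_re, Complex.ofReal_re, Complex.star_def,
        Complex.mul_conj, Complex.ofReal_re, map_mul, Complex.normSq_ofReal, zero_sub, zero_sub,
        Complex.normSq_neg, Complex.normSq_eq_norm_sq, norm_wu]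
      ring
  have h2 : ∀ j, ∑ k, (al q j k * al q k j + be q j k * star (be q k j)).re =
      (1 / 4 * dd q j ^ 2 + 9 / 4 * ‖cc q j‖ ^ 2) + 5 / 2 * ∑ k, wt q j k ^ 2 := by
    intro j
    rw [Finset.sum_congr rfl fun k _ => h1 j k, Finset.sum_add_distrib, Finset.sum_ite_eq,
      if_pos (Finset.mem_univ j), Finset.mul_sum]
  rw [Finset.sum_congr rfl fun j _ => h2 j, Finset.sum_add_distrib, Finset.sum_add_distrib,
    ← Finset.mul_sum, ← Finset.mul_sum, ← Finset.mul_sum]
  ring

end RelEqN.Small.Spec
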