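import Pool.Agent.Lib.MP_b9e19b_mp.Small.Spec

set_option autoImplicit false

/-!
# The form of the pencil on the sum `V₀ ⊕ W`
-/

open Module

namespace RelEqN.Small.V0M

open RelEqN.Small.Spec

variable {N : ℕ}

lemma ip_eq_re (x y : Fin N → ℂ) : ip x y = (∑ j, star (x j) * y j).re := by
  unfold ip
  rw [Complex.re_sum]

lemma ip_add_left (x y z : Fin N → ℂ) : ip (x + y) z = ip x z + ip y z := by
  unfold ip
  rw [← Finset.sum_add_distrib]
  refine Finset.sum_congr rfl fun j _ => ?_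
  rw [Pi.add_apply, star_add, add_mul, Complex.add_re]

lemma ip_add_right (x y z : Fin N → ℂ) : ip x (y + z) = ip x y + ip x z := by
  unfold ip
  rw [← Finset.sum_add_distrib]
  refine Finset.sum_congr rfl fun j _ => ?_
  rw [Pi.add_apply, mul_add, Complex.add_re]

lemma ip_comm (x y : Fin N → ℂ) : ip x y = ip y x := by
  unfold ip
  refine Finset.sum_congr rfl fun j _ => ?_
  simp only [Complex.mul_re, Complex.star_def, Complex.conj_re, Complex.conj_im]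
  ring

lemma ip_self_nonneg (x : Fin N → ℂ) : 0 ≤ ip x x := by
  unfold ip
  refine Finset.sum_nonneg fun j _ => ?_
  simp only [Complex.mul_re, Complex.star_def, Complex.conj_re, Complex.conj_im]
  nlinarith [mul_self_nonneg (x j).re, mul_self_nonneg (x j).im]

/-- `V₀` is orthogonal to `W`. -/
lemma ip_emb_W {q : Fin N → ℂ} (u : Fin 2 → ℂ) {w : Fin N → ℂ} (hw : w ∈ Wsub q) :
    ip (emb q u) w = 0 := by
  rw [ip_eq_re]
  have h : ∑ j, star (emb q u j) * w j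
      = star (u 0) * ∑ j, w j + star (u 1) * ∑ j, star (q j) * w j := by
    rw [Finset.mul_sum, Finset.mul_sum, ← Finset.sum_add_distrib]
    refine Finset.sum_congr rfl fun j _ => ?_
    rw [emb_apply, star_add, star_mul]
    ring
  have h1 : ∑ j, w j = 0 := hw.1
  have h2 : ∑ j, star (q j) * w j = 0 := hw.2
  rw [h, h1, h2]
  simp

lemma ip_emb_emb {q : Fin N → ℂ} (hq : ∑ j, q j = 0) (u v : Fin 2 → ℂ) :
    ip (emb q u) (emb q v) = N * (star (u 0) * v 0).re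
      + (∑ j, ‖q j‖ ^ 2) * (star (u 1) * v 1).re := by
  rw [ip_eq_re]
  have h : ∑ j, star (emb q u j) * emb q v j
      = (N : ℂ) * (star (u 0) * v 0) + star (u 0) * v 1 * ∑ j, q j
        + star (u 1) * v 0 * star (∑ j, q j)
        + ((∑ j, ‖q j‖ ^ 2 : ℝ) : ℂ) * (star (u 1) * v 1) := by
    rw [star_sum, Finset.mul_sum, Finset.mul_sum, Complex.ofReal_sum, Finset.sum_mul]
    have hN : (N : ℂ) * (star (u 0) * v 0) = ∑ _j : Fin N, star (u 0) * v 0 := by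
      rw [Finset.sum_const, Finset.card_univ, Fintype.card_fin, nsmul_eq_mul]
    rw [hN, ← Finset.sum_add_distrib, ← Finset.sum_add_distrib, ← Finset.sum_add_distrib]
    refine Finset.sum_congr rfl fun j _ => ?_
    have hj : ((‖q j‖ ^ 2 : ℝ) : ℂ) = star (q j) * q j := by
      rw [Complex.star_def, Complex.conj_mul']
      push_cast
      rfl
    rw [emb_apply, emb_apply, star_add, star_mul, hj]
    ring
  rw [h, hq, star_zero, mul_zero, mul_zero, add_zero, add_zero, Complex.add_re,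
    Complex.re_ofReal_mul, ← Complex.ofReal_natCast, Complex.re_ofReal_mul]

lemma Bm_emb {q : Fin N → ℂ} (h : IsRelEq (one N) 1 q) (u : Fin 2 → ℂ) :
    Bm q (emb q u) = emb q (B0 1 u) := by
  have h1 := Amap_emb h u
  rw [one_pow, one_smul] at h1
  exact h1

lemma J_emb (q : Fin N → ℂ) (u : Fin 2 → ℂ) :
    Jmap N (emb q u) = emb q (fun i => Complex.I * u i) := by
  funext j
  rw [Jmap_apply, emb_apply, emb_apply]
  ring

lemma J_mem {q w : Fin N → ℂ} (hw : w ∈ Wsub q) : Jmap N w ∈ Wsub q := by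
  have h1 : ∑ j, w j = 0 := hw.1
  have h2 : ∑ j, star (q j) * w j = 0 := hw.2
  constructor
  · simp only [Jmap_apply]
    rw [← Finset.mul_sum, h1, mul_zero]
  · simp only [Jmap_apply]
    have : ∑ j, star (q j) * (Complex.I * w j) = Complex.I * ∑ j, star (q j) * w j := by
      rw [Finset.mul_sum]
      refine Finset.sum_congr rfl fun j _ => ?_
      ring
    rw [this, h2, mul_zero]

lemma Bm_symm (hs : StmtSymm) (q x y : Fin N → ℂ) : ip (Bm q x) y = ip x (Bm q y) := by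
  unfold Bm
  rw [LinearMap.add_apply, LinearMap.add_apply, ip_add_left, ip_add_right, hs N q x y]
  rfl

lemma sum_zero {q : Fin N → ℂ} (h : IsRelEq (one N) 1 q) : ∑ j, q j = 0 := by
  have h1 := com_zero h
  simpa [one] using h1

lemma I_pos (hN : 3 ≤ N) {q : Fin N → ℂ} (h : IsRelEq (one N) 1 q) : 0 < ∑ j, ‖q j‖ ^ 2 := by
  have hnn : ∀ j ∈ (Finset.univ : Finset (Fin N)), 0 ≤ ‖q j‖ ^ 2 := fun j _ => by positivity
  rcases (Finset.sum_nonneg hnn).lt_or_eq with h1 | h1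
  · exact h1
  · exfalso
    have h2 := (Finset.sum_eq_zero_iff_of_nonneg hnn).1 h1.symm
    have h3 : q ⟨0, by omega⟩ = q ⟨1, by omega⟩ := by
      have ha := h2 ⟨0, by omega⟩ (Finset.mem_univ _)
      have hb := h2 ⟨1, by omega⟩ (Finset.mem_univ _)
      rw [sq_eq_zero_iff, norm_eq_zero] at ha hb
      rw [ha, hb]
    have h4 := h.2.1 h3
    simp at h4

/-- the decomposition `ℂ^N = V₀ + W` -/
lemma decomp (hN : 3 ≤ N) {q : Fin N → ℂ} (h : IsRelEq (one N) 1 q) (x : Fin N → ℂ) :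
    ∃ u : Fin 2 → ℂ, ∃ w ∈ Wsub q, x = emb q u + w := by
  have hq0 := sum_zero h
  have hI := I_pos hN h
  have hIc : ((∑ j, ‖q j‖ ^ 2 : ℝ) : ℂ) ≠ 0 := by exact_mod_cast hI.ne'
  have hNc : (N : ℂ) ≠ 0 := by
    have : N ≠ 0 := by omega
    exact_mod_cast this
  have hII : ∑ j, star (q j) * q j = ((∑ j, ‖q j‖ ^ 2 : ℝ) : ℂ) := by
    rw [Complex.ofReal_sum]
    refine Finset.sum_congr rfl fun j _ => ?_
    rw [Complex.star_def, Complex.conj_mul']
    push_cast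
    rfl
  have hqs : ∑ j, star (q j) = 0 := by
    rw [← star_sum, hq0, star_zero]
  refine ⟨![(∑ j, x j) / N, (∑ j, star (q j) * x j) / ((∑ j, ‖q j‖ ^ 2 : ℝ) : ℂ)],
    x - emb q ![(∑ j, x j) / N, (∑ j, star (q j) * x j) / ((∑ j, ‖q j‖ ^ 2 : ℝ) : ℂ)], ?_, ?_⟩
  · constructor
    · simp only [Pi.sub_apply, emb_apply, Matrix.cons_val_zero, Matrix.cons_val_one]
      rw [Finset.sum_sub_distrib, Finset.sum_add_distrib, ← Finset.mul_sum, hq0, mul_zero, add_zero,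
        Finset.sum_const, Finset.card_univ, Fintype.card_fin, nsmul_eq_mul, mul_div_cancel₀ _ hNc,
        sub_self]
    · simp only [Pi.sub_apply, emb_apply, Matrix.cons_val_zero, Matrix.cons_val_one]
      have h1 : ∀ c e : ℂ, ∑ j, star (q j) * (x j - (c + e * q j))
          = ∑ j, star (q j) * x j - c * ∑ j, star (q j) - e * ∑ j, star (q j) * q j := by
        intro c e
        rw [Finset.mul_sum, Finset.mul_sum, ← Finset.sum_sub_distrib, ← Finset.sum_sub_distrib]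
        refine Finset.sum_congr rfl fun j _ => ?_
        ring
      rw [h1, hqs, hII, mul_zero, sub_zero, div_mul_cancel₀ _ hIc, sub_self]
  · rw [add_sub_cancel]

lemma lam_nonpos {ν : ℝ} (h0 : 0 ≤ ν) (h1 : ν ≤ 1) : lam ν ≤ 0 := by
  unfold lam
  have h2 : ν ^ 2 + 3 / 2 ≤ Real.sqrt (4 * ν ^ 2 + 9 / 4) := by
    apply Real.le_sqrt_of_sq_le
    have h3 : ν ^ 2 ≤ 1 := by nlinarith
    nlinarith [mul_nonneg (sq_nonneg ν) (sub_nonneg.2 h3)]
  linarith

lemma lam_le {ν : ℝ} (_h0 : 0 ≤ ν) (h1 : ν ≤ 1) : lam ν ≤ (1 - ν) ^ 2 := by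
  unfold lam
  have h2 : 2 * ν + 1 / 2 ≤ Real.sqrt (4 * ν ^ 2 + 9 / 4) := by
    apply Real.le_sqrt_of_sq_le
    nlinarith
  nlinarith

/-- the binary form -/
lemma lam_bin (ν s t : ℝ) : lam ν * (s ^ 2 + t ^ 2) ≤ (ν ^ 2 + 3) * s ^ 2 + ν ^ 2 * t ^ 2
    + 4 * ν * s * t := by
  unfold lam
  have hS : Real.sqrt (4 * ν ^ 2 + 9 / 4) ^ 2 = 4 * ν ^ 2 + 9 / 4 :=
    Real.sq_sqrt (by positivity)
  set S := Real.sqrt (4 * ν ^ 2 + 9 / 4) with hSdef
  have hS0 : 0 ≤ S := Real.sqrt_nonneg _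
  have h1 : 0 < 3 / 2 + S := by linarith
  have h2 : 0 ≤ (3 / 2 + S) * ((3 / 2 + S) * s ^ 2 + (S - 3 / 2) * t ^ 2 + 4 * ν * s * t) := by
    have : (3 / 2 + S) * ((3 / 2 + S) * s ^ 2 + (S - 3 / 2) * t ^ 2 + 4 * ν * s * t)
        = ((3 / 2 + S) * s + 2 * ν * t) ^ 2 + (S ^ 2 - (4 * ν ^ 2 + 9 / 4)) * t ^ 2 := by ring
    rw [this, hS, sub_self, zero_mul, add_zero]
    exact sq_nonneg _
  have h3 := nonneg_of_mul_nonneg_right h2 h1
  nlinarith

lemma V0_form {q : Fin N → ℂ} (h : IsRelEq (one N) 1 q) {ν : ℝ} (h0 : 0 ≤ ν) (h1 : ν ≤ 1)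
    (u v : Fin 2 → ℂ) :
    lam ν * (ip (emb q u) (emb q u) + ip (emb q v) (emb q v)) ≤ Rf q ν (emb q u) (emb q v) := by
  have hq0 := sum_zero h
  unfold Rf
  rw [Bm_emb h, Bm_emb h, J_emb, ip_emb_emb hq0, ip_emb_emb hq0, ip_emb_emb hq0, ip_emb_emb hq0,
    ip_emb_emb hq0, B0_zero, B0_one, B0_zero, B0_one]
  have hI : 0 ≤ ∑ j, ‖q j‖ ^ 2 := Finset.sum_nonneg fun j _ => by positivity
  set I := ∑ j, ‖q j‖ ^ 2 with hIdef
  have hN : (0 : ℝ) ≤ N := Nat.cast_nonneg N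
  have e1 := lam_bin ν (u 1).re (-(v 1).im)
  have e2 := lam_bin ν (v 1).re (u 1).im
  have e3 := lam_le h0 h1
  have e4 : lam ν * ((u 0).re ^ 2 + (u 0).im ^ 2 + (v 0).re ^ 2 + (v 0).im ^ 2) ≤
      (ν ^ 2 + 1) * ((u 0).re ^ 2 + (u 0).im ^ 2 + (v 0).re ^ 2 + (v 0).im ^ 2)
        + 4 * ν * ((u 0).im * (v 0).re - (u 0).re * (v 0).im) := by
    have e5 : lam ν * ((u 0).re ^ 2 + (u 0).im ^ 2 + (v 0).re ^ 2 + (v 0).im ^ 2) ≤
        (1 - ν) ^ 2 * ((u 0).re ^ 2 + (u 0).im ^ 2 + (v 0).re ^ 2 + (v 0).im ^ 2) :=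
      mul_le_mul_of_nonneg_right e3 (by positivity)
    nlinarith [mul_nonneg h0 (sq_nonneg ((u 0).im + (v 0).re)),
      mul_nonneg h0 (sq_nonneg ((u 0).re - (v 0).im))]
  have e6 := mul_le_mul_of_nonneg_left e4 hN
  have e7 := mul_le_mul_of_nonneg_left (add_le_add e1 e2) hI
  simp only [Complex.mul_re, Complex.mul_im, Complex.star_def, Complex.conj_re, Complex.conj_im,
    Complex.I_re, Complex.I_im, Complex.ofReal_re, Complex.ofReal_im, Complex.smul_re,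
    Complex.smul_im, smul_eq_mul, one_pow, mul_zero, zero_mul, one_mul, sub_zero, zero_sub,
    mul_one, zero_add] at *
  nlinarith

theorem stmtV0_aux (hs : StmtSymm) (hN : 3 ≤ N) {q : Fin N → ℂ} (h : IsRelEq (one N) 1 q)
    {ν : ℝ} (h0 : 0 ≤ ν) (h1 : ν ≤ 1) (hW : ∀ x ∈ Wsub q, ∀ y ∈ Wsub q, 0 ≤ Rf q ν x y)
    (x y : Fin N → ℂ) : lam ν * (ip x x + ip y y) ≤ Rf q ν x y := by
  obtain ⟨u, w, hw, rfl⟩ := decomp hN h x
  obtain ⟨v, z, hz, rfl⟩ := decomp hN h y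
  have hlam := lam_nonpos h0 h1
  have o : ∀ (u : Fin 2 → ℂ) (w : Fin N → ℂ), w ∈ Wsub q → ip (emb q u) w = 0 :=
    fun u w hw => ip_emb_W u hw
  have o' : ∀ (u : Fin 2 → ℂ) (w : Fin N → ℂ), w ∈ Wsub q → ip w (emb q u) = 0 :=
    fun u w hw => by rw [ip_comm, ip_emb_W u hw]
  have oB : ∀ (u : Fin 2 → ℂ) (w : Fin N → ℂ), w ∈ Wsub q → ip (emb q u) (Bm q w) = 0 :=
    fun u w hw => by rw [← Bm_symm hs, Bm_emb h, ip_emb_W _ hw]
  have oB' : ∀ (u : Fin 2 → ℂ) (w : Fin N → ℂ), w ∈ Wsub q → ip w (Bm q (emb q u)) = 0 :=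
    fun u w hw => by rw [Bm_emb h, o' _ w hw]
  have e1 : ip (emb q u + w) (emb q u + w) = ip (emb q u) (emb q u) + ip w w := by
    rw [ip_add_left, ip_add_right, ip_add_right, o u w hw, o' u w hw]
    ring
  have e2 : ip (emb q v + z) (emb q v + z) = ip (emb q v) (emb q v) + ip z z := by
    rw [ip_add_left, ip_add_right, ip_add_right, o v z hz, o' v z hz]
    ring
  have e3 : ip (emb q u + w) (Bm q (emb q u + w)) = ip (emb q u) (Bm q (emb q u)) + ip w (Bm q w) := by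
    rw [map_add, ip_add_left, ip_add_right, ip_add_right, oB u w hw, oB' u w hw]
    ring
  have e4 : ip (emb q v + z) (Bm q (emb q v + z)) = ip (emb q v) (Bm q (emb q v)) + ip z (Bm q z) := by
    rw [map_add, ip_add_left, ip_add_right, ip_add_right, oB v z hz, oB' v z hz]
    ring
  have e5 : ip (emb q u + w) (Jmap N (emb q v + z)) = ip (emb q u) (Jmap N (emb q v))
      + ip w (Jmap N z) := by
    rw [map_add, ip_add_left, ip_add_right, ip_add_right, o u _ (J_mem hz), J_emb, o' _ w hw]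
    ring
  have e6 : Rf q ν (emb q u + w) (emb q v + z) = Rf q ν (emb q u) (emb q v) + Rf q ν w z := by
    unfold Rf
    rw [e1, e2, e3, e4, e5]
    ring
  have e7 := V0_form h h0 h1 u v
  have e8 := hW w hw z hz
  have e9 : lam ν * (ip w w + ip z z) ≤ 0 :=
    mul_nonpos_of_nonpos_of_nonneg hlam (add_nonneg (ip_self_nonneg w) (ip_self_nonneg z))
  rw [e1, e2, e6]
  nlinarith

end RelEqN.Small.V0M

namespace RelEqN.Small.Spec

/-- The form on the sum `V₀ ⊕ W`. -/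
theorem stmtV0 (h : StmtSymm) : StmtV0 := by
  intro N hN q hq ν h0 h1 hW x y
  exact V0M.stmtV0_aux h hN hq h0 h1 hW x y

end RelEqN.Small.Spec
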