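import Pool.Agent.Lib.MP_b9e19b_mp.Small.Spec

set_option autoImplicit false

/-!
# Roots of the characteristic polynomial of a subsystem
-/

open Module

namespace RelEqN.Small.SubRootsM

lemma roots_sub {E V : Type} [AddCommGroup E] [Module ℝ E] [FiniteDimensional ℝ E]
    [AddCommGroup V] [Module ℝ V] [FiniteDimensional ℝ V]
    (f : E →ₗ[ℝ] E) (f₀ : V →ₗ[ℝ] V) (i : V →ₗ[ℝ] E)
    (hi : Function.Injective i) (h : ∀ v, f (i v) = i (f₀ v)) :
    ∀ z : ℂ, (f₀.charpoly.map (algebraMap ℝ ℂ)).IsRoot z →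
      (f.charpoly.map (algebraMap ℝ ℂ)).IsRoot z := by
  classical
  obtain ⟨C, hC⟩ := Submodule.exists_isCompl (LinearMap.range i)
  let e : (V × C) ≃ₗ[ℝ] E :=
    ((LinearEquiv.ofInjective i hi).prodCongr (LinearEquiv.refl ℝ C)).trans
      (Submodule.prodEquivOfIsCompl _ C hC)
  have he : ∀ v : V, e (v, 0) = i v := by
    intro v
    simp [e]
  have he' : ∀ v : V, e.symm (i v) = (v, 0) := by
    intro v
    rw [← he v, LinearEquiv.symm_apply_apply]
  let b₀ := finBasis ℝ V
  let c := finBasis ℝ C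
  let b := (b₀.prod c).map e
  have hb : ∀ v : V, ∀ k, b.repr (i v) (Sum.inr k) = 0 := by
    intro v k
    simp [b, he']
  have hb' : ∀ v : V, ∀ k, b.repr (i v) (Sum.inl k) = b₀.repr v k := by
    intro v k
    simp [b, he']
  have hbl : ∀ k, b (Sum.inl k) = i (b₀ k) := by
    intro k
    simp [b, he]
  set M := LinearMap.toMatrix b b f with hM
  have h21 : M.toBlocks₂₁ = 0 := by
    ext k l
    simp only [Matrix.toBlocks₂₁, Matrix.of_apply, hM, LinearMap.toMatrix_apply, hbl, h, hb,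
      Matrix.zero_apply]
  have h11 : M.toBlocks₁₁ = LinearMap.toMatrix b₀ b₀ f₀ := by
    ext k l
    simp only [Matrix.toBlocks₁₁, Matrix.of_apply, hM, LinearMap.toMatrix_apply, hbl, h, hb']
  have hMb : M = Matrix.fromBlocks M.toBlocks₁₁ M.toBlocks₁₂ 0 M.toBlocks₂₂ := by
    rw [← h21, Matrix.fromBlocks_toBlocks]
  have hch : f.charpoly = f₀.charpoly * M.toBlocks₂₂.charpoly := by
    rw [← LinearMap.charpoly_toMatrix f b, ← hM, ← LinearMap.charpoly_toMatrix f₀ b₀, ← h11]
    conv_lhs => rw [hMb]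
    rw [Matrix.charpoly_fromBlocks_zero₂₁]
  intro z hz
  rw [hch, Polynomial.map_mul]
  exact Polynomial.root_mul_right_of_isRoot _ hz

end RelEqN.Small.SubRootsM

namespace RelEqN.Small.Spec

/-- Roots of a subsystem are roots of the system. -/
theorem stmtSubRoots : StmtSubRoots := by
  intro E V _ _ _ _ _ _ f f₀ i hi h z hz
  exact SubRootsM.roots_sub f f₀ i hi h z hz

end RelEqN.Small.Spec
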